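import Pool.Agent.H491R3.PE.Struct

/-!
# Pairs of powers `a ^ n`, `c b ^ m` at distance at most `x`: the bulk
-/

set_option autoImplicit false

namespace Pool.Agent.Q127.NC

open Real Filter Set
open Pool.Agent.H491R3.PE

variable {a b c : ℝ}

/-- the pairs `(n, m)` with `|a ^ n - c b ^ m| ≤ x` -/
def P (a b c x : ℝ) : Set (ℕ × ℕ) := {p | |a ^ p.1 - c * b ^ p.2| ≤ x}

/-- the pairs with `n ≤ Y` -/
def PY (a b c x Y : ℝ) : Set (ℕ × ℕ) := {p | (p.1 : ℝ) ≤ Y ∧ |a ^ p.1 - c * b ^ p.2| ≤ x}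

/-- the pairs with `a ^ n ≤ x ^ 2` -/
def NB (a b c x : ℝ) : Set (ℕ × ℕ) := {p | |a ^ p.1 - c * b ^ p.2| ≤ x ∧ a ^ p.1 ≤ x ^ 2}

/-- the pairs with `a ^ n > x ^ 2` -/
def K (a b c x : ℝ) : Set (ℕ × ℕ) := {p | |a ^ p.1 - c * b ^ p.2| ≤ x ∧ x ^ 2 < a ^ p.1}

/-- the box -/
def Bx (a b c x : ℝ) : Set (ℕ × ℕ) := {p | a ^ p.1 ≤ x ∧ c * b ^ p.2 ≤ x}

theorem mul_pow_le_iff_log (hb : 1 < b) (hc : 0 < c) {x : ℝ} (hx : 0 < x) (m : ℕ) :
    c * b ^ m ≤ x ↔ (m : ℝ) ≤ (log x - log c) / log b := by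
  have hB : 0 < log b := log_pos hb
  rw [le_div_iff₀ hB, ← Real.log_pow, le_sub_iff_add_le, ← Real.log_mul (by positivity) hc.ne',
    Real.log_le_log_iff (by positivity) hx, mul_comm]

theorem Bx_sub_NB (ha : 1 < a) (hb : 1 < b) (hc : 0 < c) {x : ℝ} (hx : 2 ≤ x) :
    Bx a b c x ⊆ NB a b c x := by
  rintro p ⟨h1, h2⟩
  have ha0 : 0 < a ^ p.1 := by positivity
  have hb0 : 0 < c * b ^ p.2 := by positivity
  refine ⟨?_, by nlinarith⟩
  rw [abs_le]
  constructor <;> linarith

theorem P_eq (x : ℝ) : P a b c x = NB a b c x ∪ K a b c x := by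
  ext p
  simp only [P, NB, K, mem_union, mem_ofPred_eq]
  constructor
  · intro h
    rcases le_or_gt (a ^ p.1) (x ^ 2) with h1 | h1
    · exact Or.inl ⟨h, h1⟩
    · exact Or.inr ⟨h, h1⟩
  · rintro (h | h) <;> exact h.1

theorem Bx_finite (ha : 1 < a) (hb : 1 < b) (hc : 0 < c) {x : ℝ} (hx : 2 ≤ x) :
    (Bx a b c x).Finite := by
  have hx0 : 0 < x := by linarith
  refine ((Finset.Icc 0 ⌊log x / log a⌋₊ ×ˢ
    Finset.Icc 0 ⌊(log x - log c) / log b⌋₊ : Finset (ℕ × ℕ)).finite_toSet).subset ?_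
  rintro p ⟨h1, h2⟩
  rw [Finset.mem_coe, Finset.mem_product, Finset.mem_Icc, Finset.mem_Icc]
  rw [pow_le_iff_log ha hx0] at h1
  rw [mul_pow_le_iff_log hb hc hx0] at h2
  exact ⟨⟨Nat.zero_le _, Nat.le_floor h1⟩, ⟨Nat.zero_le _, Nat.le_floor h2⟩⟩

theorem Bx_lower (ha : 1 < a) (hb : 1 < b) (hc : 0 < c) {x : ℝ} (hx : 2 ≤ x) :
    log x / log a * ((log x - log c) / log b) ≤ ((Bx a b c x).ncard : ℝ) := by
  have hA : 0 < log a := log_pos ha
  have hB : 0 < log b := log_pos hb
  have hx0 : 0 < x := by linarith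
  have hl : 0 < log x := log_pos (by linarith)
  have hU : 0 ≤ log x / log a := by positivity
  rcases lt_or_ge (log x - log c) 0 with hneg | hpos
  · refine le_trans ?_ (Nat.cast_nonneg _)
    apply mul_nonpos_of_nonneg_of_nonpos hU
    apply div_nonpos_of_nonpos_of_nonneg hneg.le hB.le
  · have hV : 0 ≤ (log x - log c) / log b := by positivity
    have e : Bx a b c x =
        ((Finset.Icc 0 ⌊log x / log a⌋₊ ×ˢ Finset.Icc 0 ⌊(log x - log c) / log b⌋₊ :
          Finset (ℕ × ℕ)) : Set (ℕ × ℕ)) := by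
      ext p
      rw [Bx, mem_ofPred_eq, Finset.mem_coe, Finset.mem_product, Finset.mem_Icc, Finset.mem_Icc,
        pow_le_iff_log ha hx0, mul_pow_le_iff_log hb hc hx0, Nat.le_floor_iff hU,
        Nat.le_floor_iff hV]
      simp
    rw [e, Set.ncard_coe_finset, Finset.card_product, Nat.card_Icc, Nat.card_Icc]
    push_cast
    have h1 := (Nat.lt_floor_add_one (log x / log a)).le
    have h2 := (Nat.lt_floor_add_one ((log x - log c) / log b)).le
    exact mul_le_mul h1 h2 hV (by positivity)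

/-- for `2 x < a ^ n`, few `m` -/
theorem m_window' (ha : 1 < a) (hb : 1 < b) (hc : 0 < c) {x : ℝ} {n m : ℕ} (h2 : 2 * x < a ^ n)
    (h : |a ^ n - c * b ^ m| ≤ x) :
    ((n : ℝ) * log a - log 2 - log c) / log b ≤ m ∧
      (m : ℝ) ≤ ((n : ℝ) * log a - log 2 - log c) / log b + log 3 / log b := by
  have hB : 0 < log b := log_pos hb
  have ha0 : 0 < a ^ n := by positivity
  have hb0 : 0 < c * b ^ m := by positivity
  rw [abs_le] at h
  have h3 : a ^ n / 2 ≤ c * b ^ m := by linarith [h.1]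
  have h4 : c * b ^ m ≤ 3 * (a ^ n / 2) := by linarith [h.1]
  have h5 := Real.log_le_log (by positivity) h3
  have h6 := Real.log_le_log hb0 h4
  have e : log (c * b ^ m) = log c + m * log b := by
    rw [Real.log_mul hc.ne' (by positivity), Real.log_pow]
  rw [Real.log_div ha0.ne' (by norm_num), Real.log_pow, e] at h5
  rw [e, Real.log_mul (by norm_num : (3 : ℝ) ≠ 0) (by positivity),
    Real.log_div ha0.ne' (by norm_num), Real.log_pow] at h6
  constructor
  · rw [div_le_iff₀ hB]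
    linarith
  · rw [← add_div, le_div_iff₀ hB]
    linarith

/-- the bulk, uniformly in `c` -/
theorem bulk (ha : 1 < a) (hb : 1 < b) {G : ℝ} (hG : 0 ≤ G) :
    ∃ C : ℝ, 0 ≤ C ∧ ∀ c : ℝ, 0 < c → |log c| ≤ G → ∀ x : ℝ, 2 ≤ x →
      (NB a b c x).Finite ∧
      log x ^ 2 / (log a * log b) - C * log x ≤ ((Bx a b c x).ncard : ℝ) ∧
      ((NB a b c x).ncard : ℝ) ≤ log x ^ 2 / (log a * log b) + C * log x := by
  classical
  have hA : 0 < log a := log_pos ha
  have hB : 0 < log b := log_pos hb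
  have hl2 : 0 < log 2 := log_pos (by norm_num)
  have hl3 : 0 < log 3 := log_pos (by norm_num)
  set A := log a with hAdef
  set B := log b with hBdef
  -- (L / A + log 2 / A + 1) (L / B + (log 3 + G) / B + 1) + (2 L / A + 1) (log 3 / B + 1)
  set c1 := log 2 / A + 1 with hc1
  set c2 := (log 3 + G) / B + 1 with hc2
  set c3 := log 3 / B + 1 with hc3
  have p1 : 0 < c1 := by positivity
  have p2 : 0 < c2 := by positivity
  have p3 : 0 < c3 := by positivity
  refine ⟨G / (A * B) + (c2 / A + c1 / B + 2 * c3 / A) + (c1 * c2 + c3) / log 2, by positivity,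
    fun c hc hcG x hx => ?_⟩
  have hx0 : 0 < x := by linarith
  have hlx : log 2 ≤ log x := Real.log_le_log (by norm_num) hx
  have hlx0 : 0 < log x := by linarith
  rw [abs_le] at hcG
  have l2x : log (2 * x) = log 2 + log x := Real.log_mul (by norm_num) hx0.ne'
  have l3x : log (3 * x) = log 3 + log x := Real.log_mul (by norm_num) hx0.ne'
  have lx2 : log (x ^ 2) = 2 * log x := by rw [Real.log_pow]; norm_num
  set R1 := {p : ℕ × ℕ | a ^ p.1 ≤ 2 * x ∧ c * b ^ p.2 ≤ 3 * x} with hR1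
  set R3 := {p : ℕ × ℕ | |a ^ p.1 - c * b ^ p.2| ≤ x ∧ 2 * x < a ^ p.1 ∧ a ^ p.1 ≤ x ^ 2} with hR3
  have r1 := set_count (S := R1) (u := 0) (L := log x / A + log 2 / A)
    (L2 := log x / B + (log 3 + G) / B) (f := fun _ => 0)
    (by positivity) (by positivity) (by
      rintro p ⟨h1, h2⟩
      have h5 := (pow_le_iff_log ha (by linarith) p.1).1 h1
      rw [l2x, add_div] at h5
      have h7 := (mul_pow_le_iff_log hb hc (by linarith) p.2).1 h2
      rw [l3x] at h7
      have h8 : (log 3 + log x - log c) / B ≤ log x / B + (log 3 + G) / B := by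
        rw [← add_div]
        apply div_le_div_of_nonneg_right _ hB.le
        linarith [hcG.1]
      refine ⟨by positivity, by linarith, by positivity, by linarith⟩)
  have r3 := set_count (S := R3) (u := 0) (L := 2 * (log x / A)) (L2 := log 3 / B)
    (f := fun n => ((n : ℝ) * log a - log 2 - log c) / log b)
    (by positivity) (by positivity) (by
      rintro p ⟨h1, h2, h3⟩
      have h5 := (pow_le_iff_log ha (by positivity) p.1).1 h3
      rw [lx2, mul_div_assoc] at h5
      obtain ⟨h6, h7⟩ := m_window' ha hb hc h2 h1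
      refine ⟨by positivity, by rw [zero_add]; exact h5, h6, h7⟩)
  have hcover : NB a b c x ⊆ R1 ∪ R3 := by
    rintro p ⟨h1, h2⟩
    rcases le_or_gt (a ^ p.1) (2 * x) with h4 | h4
    · left
      rw [abs_le] at h1
      exact ⟨h4, by linarith [h1.1]⟩
    · right
      exact ⟨h1, h4, h2⟩
  have hfin : (R1 ∪ R3).Finite := r1.1.union r3.1
  refine ⟨hfin.subset hcover, ?_, ?_⟩
  · refine le_trans ?_ (Bx_lower ha hb hc hx)
    have e1 : log x / A * ((log x - log c) / B) =
        log x ^ 2 / (A * B) - log c / (A * B) * log x := by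
      field_simp
    rw [e1]
    have e2 : log c / (A * B) * log x ≤ G / (A * B) * log x := by
      apply mul_le_mul_of_nonneg_right _ hlx0.le
      exact div_le_div_of_nonneg_right hcG.2 (by positivity)
    have e3 : 0 ≤ (c2 / A + c1 / B + 2 * c3 / A) + (c1 * c2 + c3) / log 2 := by positivity
    nlinarith
  · have up : ((NB a b c x).ncard : ℝ) ≤ R1.ncard + R3.ncard := by
      have u1 := Set.ncard_le_ncard hcover hfin
      have u2 := Set.ncard_union_le R1 R3
      exact_mod_cast u1.trans u2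
    have s1 := r1.2
    have s3 := r3.2
    have e1 : (log x / A + log 2 / A + 1) * (log x / B + (log 3 + G) / B + 1) =
        log x ^ 2 / (A * B) + (c2 / A + c1 / B) * log x + c1 * c2 := by
      rw [hc1, hc2]
      field_simp
      ring
    have e2 : (2 * (log x / A) + 1) * (log 3 / B + 1) = 2 * c3 / A * log x + c3 := by
      rw [hc3]
      field_simp
    rw [e1] at s1
    rw [e2] at s3
    have e3 : c1 * c2 + c3 ≤ (c1 * c2 + c3) / log 2 * log x := by
      rw [div_mul_eq_mul_div, le_div_iff₀ hl2]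
      exact mul_le_mul_of_nonneg_left hlx (by positivity)
    have e4 : 0 ≤ G / (A * B) * log x := by positivity
    nlinarith

end Pool.Agent.Q127.NC
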