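import Pool.Agent.Q127.NC.TwoSol
import Pool.Agent.TH50.DQ.MeasK

/-!
# Diophantine multipliers: the range of exponents is a tower
-/

set_option autoImplicit false

namespace Pool.Agent.Q127.NC

open Real Filter Set Topology
open Pool.Agent.H491R3.PE

variable {a b c : ℝ}

/-- tower of twos -/
def tow : ℕ → ℕ
  | 0 => 1
  | h + 1 => 2 ^ tow h

theorem thin_set {S : Set (ℕ × ℕ)} {n₀ : ℕ} {lam : ℝ} (hln : 1 ≤ lam * n₀) (hlam : 0 < lam)
    (h1 : ∀ p ∈ S, ∀ q ∈ S, n₀ ≤ p.1 → p.1 = q.1 → p = q)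
    (h3 : ∀ p ∈ S, ∀ q ∈ S, n₀ ≤ p.1 → p.1 < q.1 →
      (2 : ℝ) ^ (lam * (p.1 : ℝ)) ≤ lam * q.1) :
    ∀ (h : ℕ) (F : Finset (ℕ × ℕ)),
      (∀ l ∈ F, l ∈ S ∧ n₀ ≤ l.1 ∧ lam * l.1 < tow h) → F.card ≤ h := by
  classical
  intro h
  induction h with
  | zero =>
    intro F hF
    rw [Nat.le_zero, Finset.card_eq_zero, Finset.eq_empty_iff_forall_notMem]
    intro l hl
    obtain ⟨-, h4, h5⟩ := hF l hl
    have h6 : (n₀ : ℝ) ≤ l.1 := by exact_mod_cast h4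
    have h7 : lam * n₀ ≤ lam * l.1 := mul_le_mul_of_nonneg_left h6 hlam.le
    have h8 : ((tow 0 : ℕ) : ℝ) = 1 := by simp [tow]
    rw [h8] at h5
    linarith
  | succ h ih =>
    intro F hF
    have h4 := Finset.card_filter_add_card_filter_not (s := F)
      (fun l => lam * (l.1 : ℝ) < tow h)
    have h5 := ih (F.filter fun l => lam * (l.1 : ℝ) < tow h) (by
      intro l hl
      rw [Finset.mem_filter] at hl
      exact ⟨(hF l hl.1).1, (hF l hl.1).2.1, hl.2⟩)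
    have h6 : (F.filter fun l => ¬ lam * (l.1 : ℝ) < tow h).card ≤ 1 := by
      rw [Finset.card_le_one]
      have key : ∀ p ∈ F.filter (fun l => ¬ lam * (l.1 : ℝ) < tow h),
          ∀ q ∈ F.filter (fun l => ¬ lam * (l.1 : ℝ) < tow h), ¬ p.1 < q.1 := by
        intro p hp q hq hpq
        rw [Finset.mem_filter] at hp hq
        obtain ⟨a1, a2, a3⟩ := hF p hp.1
        obtain ⟨b1, b2, b3⟩ := hF q hq.1
        have h7 := h3 p a1 q b1 a2 hpq
        have h8 : ((tow (h + 1) : ℕ) : ℝ) = (2 : ℝ) ^ ((tow h : ℕ) : ℝ) := by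
          rw [Real.rpow_natCast]
          simp [tow]
        rw [h8] at b3
        have h9 : (tow h : ℝ) ≤ lam * p.1 := not_lt.1 hp.2
        have h10 : (2 : ℝ) ^ ((tow h : ℕ) : ℝ) ≤ (2 : ℝ) ^ (lam * (p.1 : ℝ)) :=
          Real.rpow_le_rpow_of_exponent_le (by norm_num) h9
        linarith
      intro p hp q hq
      have hp' := hp
      rw [Finset.mem_filter] at hp hq
      exact h1 p (hF p hp.1).1 q (hF q hq.1).1 (hF p hp.1).2.1
        (le_antisymm (not_lt.1 (key q (Finset.mem_filter.2 hq) p hp'))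
          (not_lt.1 (key p hp' q (Finset.mem_filter.2 hq))))
    omega

theorem W_fin (hb : 1 < b) (N : ℕ) : {p | p ∈ W a b c ∧ p.1 ≤ N}.Finite := by
  classical
  have hB : 0 < log b := log_pos hb
  set M := ⌊((N : ℝ) * |log a| + |log c| + 1) / log b⌋₊ with hM
  refine ((Finset.range (N + 1) ×ˢ Finset.range (M + 1) : Finset (ℕ × ℕ)).finite_toSet).subset ?_
  rintro p ⟨⟨h1, h2⟩, hN⟩
  rw [Finset.mem_coe, Finset.mem_product, Finset.mem_range, Finset.mem_range, Nat.lt_succ_iff,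
    Nat.lt_succ_iff]
  refine ⟨hN, Nat.le_floor ?_⟩
  have h3 : 2 / √a ^ p.1 ≤ 1 := by
    rw [div_le_one (by linarith)]
    exact h1
  have h4 := abs_le.1 (h2.trans h3)
  rw [le_div_iff₀ hB]
  have h5 : (p.1 : ℝ) * log a ≤ N * |log a| := by
    refine (mul_le_mul_of_nonneg_left (le_abs_self _) (Nat.cast_nonneg _)).trans ?_
    exact mul_le_mul_of_nonneg_right (by exact_mod_cast hN) (abs_nonneg _)
  have h6 := neg_abs_le (log c)
  linarith [h4.1]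

/-- the gaps -/
theorem dio_gap (ha : 1 < a) {κ : ℝ} {μ : ℕ} (hκ : 0 < κ)
    (hdio : ∀ j : ℕ, 1 ≤ j → ∀ l : ℤ, κ / (j : ℝ) ^ μ ≤ |(j : ℝ) * log c - l * log b|)
    {p q : ℕ × ℕ} (hp : p ∈ W a b c) (hq : q ∈ W a b c) (hpq : p.1 < q.1) :
    κ * √a ^ p.1 ≤ 4 * (q.1 : ℝ) ^ (μ + 1) := by
  have hs := one_lt_sqrt ha
  have hS : 0 < √a ^ p.1 := by positivity
  have h1 := W_diff ha hp hq hpq.le
  have h2 := hp.2
  have h3 := hdio (q.1 - p.1) (by omega) ((p.1 : ℤ) * ((q.2 : ℤ) - p.2) - ((q.1 : ℤ) - p.1) * p.2)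
  rw [Nat.cast_sub hpq.le] at h3
  push_cast at h3
  have e : ((q.1 : ℝ) - p.1) * log c - ((p.1 : ℝ) * ((q.2 : ℝ) - p.2) - ((q.1 : ℝ) - p.1) * p.2) *
      log b = (p.1 : ℝ) * (((q.1 : ℝ) - p.1) * log a - ((q.2 : ℝ) - p.2) * log b) -
      ((q.1 : ℝ) - p.1) * ((p.1 : ℝ) * log a - p.2 * log b - log c) := by
    ring
  rw [e] at h3
  have hd : (0 : ℝ) < (q.1 : ℝ) - p.1 := by
    rw [sub_pos]
    exact_mod_cast hpq
  have hp0 : (0 : ℝ) ≤ p.1 := Nat.cast_nonneg _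
  have h4 := abs_sub ((p.1 : ℝ) * (((q.1 : ℝ) - p.1) * log a - ((q.2 : ℝ) - p.2) * log b))
    (((q.1 : ℝ) - p.1) * ((p.1 : ℝ) * log a - p.2 * log b - log c))
  rw [abs_mul, abs_mul, abs_of_nonneg hp0, abs_of_pos hd] at h4
  have h5 : (p.1 : ℝ) * |((q.1 : ℝ) - p.1) * log a - ((q.2 : ℝ) - p.2) * log b| ≤
      p.1 * (4 / √a ^ p.1) := mul_le_mul_of_nonneg_left h1 hp0
  have h6 : ((q.1 : ℝ) - p.1) * |(p.1 : ℝ) * log a - p.2 * log b - log c| ≤
      ((q.1 : ℝ) - p.1) * (2 / √a ^ p.1) := mul_le_mul_of_nonneg_left h2 hd.le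
  have h7 : (p.1 : ℝ) * (4 / √a ^ p.1) + ((q.1 : ℝ) - p.1) * (2 / √a ^ p.1) ≤
      4 * q.1 / √a ^ p.1 := by
    rw [mul_div_assoc', mul_div_assoc', ← add_div]
    apply div_le_div_of_nonneg_right _ hS.le
    linarith
  have h8 : κ / ((q.1 : ℝ) - p.1) ^ μ ≤ 4 * q.1 / √a ^ p.1 := by linarith
  have hq0 : (0 : ℝ) < q.1 := by
    have : 0 < q.1 := by omega
    exact_mod_cast this
  have h9 : κ / (q.1 : ℝ) ^ μ ≤ κ / ((q.1 : ℝ) - p.1) ^ μ := by
    apply div_le_div_of_nonneg_left hκ.le (by positivity)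
    exact pow_le_pow_left₀ hd.le (by linarith) μ
  have h10 := h9.trans h8
  rw [div_le_div_iff₀ (by positivity) hS] at h10
  calc κ * √a ^ p.1 ≤ 4 * q.1 * (q.1 : ℝ) ^ μ := h10
    _ = 4 * (q.1 : ℝ) ^ (μ + 1) := by ring

/-- near misses of a Diophantine multiplier are very rare -/
theorem dio_thin (ha : 1 < a) (hb : 1 < b) {κ : ℝ} {μ : ℕ} (hκ : 0 < κ)
    (hdio : ∀ j : ℕ, 1 ≤ j → ∀ l : ℤ, κ / (j : ℝ) ^ μ ≤ |(j : ℝ) * log c - l * log b|) :
    ∃ C : ℕ, ∀ h : ℕ, {p | p ∈ W a b c ∧ p.1 ≤ tow h}.ncard ≤ h + C := by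
  classical
  have hs := one_lt_sqrt ha
  obtain ⟨n₁, hinj⟩ := W_inj ha hb
  set ν := log (√a) with hν
  have hν0 : 0 < ν := log_pos hs
  have hl2 : 0 < log 2 := log_pos (by norm_num)
  have hμ1 : (0 : ℝ) < (μ : ℝ) + 1 := by positivity
  set lam : ℝ := min 1 (ν / (2 * (μ + 1) * log 2)) with hlam
  have hlam0 : 0 < lam := lt_min one_pos (by positivity)
  have hlam1 : lam ≤ 1 := min_le_left _ _
  have hlam2 : lam * log 2 * (μ + 1) ≤ ν / 2 := by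
    have h1 : lam ≤ ν / (2 * (μ + 1) * log 2) := min_le_right _ _
    calc lam * log 2 * (μ + 1) ≤ ν / (2 * (μ + 1) * log 2) * log 2 * (μ + 1) := by gcongr
      _ = ν / 2 := by field_simp
  -- for large `n`: `4 (2 ^ (lam n) / lam) ^ (μ + 1) ≤ κ s ^ n`
  set Q : ℝ := 4 / lam ^ (μ + 1) / κ with hQ
  have hQ0 : 0 < Q := by positivity
  obtain ⟨n₂, hn₂⟩ := exists_nat_ge (2 * Q / ν)
  obtain ⟨n₃, hn₃⟩ := exists_nat_ge (1 / lam)
  set n₀ := max (max n₁ n₂) (max n₃ 1) with hn₀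
  have hln : 1 ≤ lam * n₀ := by
    have h1 : (n₃ : ℝ) ≤ (n₀ : ℝ) := by
      exact_mod_cast (le_max_left _ _).trans (le_max_right _ _)
    have h2 : 1 / lam ≤ (n₀ : ℝ) := hn₃.trans h1
    rw [div_le_iff₀ hlam0] at h2
    linarith
  have hg1 : ∀ p ∈ W a b c, ∀ q ∈ W a b c, n₀ ≤ p.1 → p.1 = q.1 → p = q := by
    intro p hp q hq hn hpq
    exact hinj c p hp q hq (((le_max_left _ _).trans (le_max_left _ _)).trans hn) hpq
  have hg3 : ∀ p ∈ W a b c, ∀ q ∈ W a b c, n₀ ≤ p.1 → p.1 < q.1 →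
      (2 : ℝ) ^ (lam * (p.1 : ℝ)) ≤ lam * q.1 := by
    intro p hp q hq hn hpq
    have h1 := dio_gap ha hκ hdio hp hq hpq
    have hp2 : (2 * Q / ν : ℝ) ≤ p.1 := hn₂.trans (by
      exact_mod_cast ((le_max_right _ _).trans (le_max_left _ _)).trans hn)
    have hn0 : (0 : ℝ) ≤ p.1 := Nat.cast_nonneg _
    have e1 : √a ^ p.1 = Real.exp (ν * p.1) := by
      rw [mul_comm, Real.exp_nat_mul, hν, Real.exp_log (by positivity)]
    have e2 : ((2 : ℝ) ^ (lam * (p.1 : ℝ))) ^ (μ + 1) ≤ Real.exp (ν / 2 * p.1) := by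
      rw [Real.rpow_def_of_pos (by norm_num), ← Real.exp_nat_mul]
      apply Real.exp_le_exp.2
      push_cast
      calc ((μ : ℝ) + 1) * (log 2 * (lam * p.1)) = lam * log 2 * (μ + 1) * p.1 := by ring
        _ ≤ ν / 2 * p.1 := mul_le_mul_of_nonneg_right hlam2 hn0
    have e3 : Q ≤ Real.exp (ν / 2 * p.1) := by
      have h5 : ν / 2 * p.1 ≤ Real.exp (ν / 2 * p.1) := by
        have := Real.add_one_le_exp (ν / 2 * (p.1 : ℝ))
        linarith
      rw [div_le_iff₀ hν0] at hp2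
      linarith
    have e4 : Q * ((2 : ℝ) ^ (lam * (p.1 : ℝ))) ^ (μ + 1) ≤ √a ^ p.1 := by
      rw [e1]
      have e5 : Real.exp (ν * p.1) = Real.exp (ν / 2 * p.1) * Real.exp (ν / 2 * p.1) := by
        rw [← Real.exp_add]
        congr 1
        ring
      rw [e5]
      exact mul_le_mul e3 e2 (by positivity) (Real.exp_pos _).le
    have e6 : ((2 : ℝ) ^ (lam * (p.1 : ℝ))) ^ (μ + 1) ≤ (lam * q.1) ^ (μ + 1) := by
      rw [mul_pow]
      have h7 : κ * (Q * ((2 : ℝ) ^ (lam * (p.1 : ℝ))) ^ (μ + 1)) ≤ 4 * (q.1 : ℝ) ^ (μ + 1) :=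
        (mul_le_mul_of_nonneg_left e4 hκ.le).trans h1
      have h8 : κ * (Q * ((2 : ℝ) ^ (lam * (p.1 : ℝ))) ^ (μ + 1)) =
          4 * (((2 : ℝ) ^ (lam * (p.1 : ℝ))) ^ (μ + 1) / lam ^ (μ + 1)) := by
        rw [hQ]
        field_simp
      rw [h8] at h7
      have h9 : ((2 : ℝ) ^ (lam * (p.1 : ℝ))) ^ (μ + 1) / lam ^ (μ + 1) ≤ (q.1 : ℝ) ^ (μ + 1) := by
        linarith
      rw [div_le_iff₀ (by positivity)] at h9
      linarith
    exact le_of_pow_le_pow_left₀ (by omega) (by positivity) e6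
  have hF0 := W_fin (a := a) (c := c) hb n₀
  refine ⟨hF0.toFinset.card + 1, fun h => ?_⟩
  have hF := W_fin (a := a) (c := c) hb (tow h)
  rw [Set.ncard_eq_toFinset_card _ hF]
  have h4 := Finset.card_filter_add_card_filter_not (s := hF.toFinset) (fun l => n₀ ≤ l.1)
  have h5 := thin_set (S := W a b c) hln hlam0 hg1 hg3 (h + 1)
    (hF.toFinset.filter fun l => n₀ ≤ l.1) (by
    intro l hl
    rw [Finset.mem_filter, Set.Finite.mem_toFinset] at hl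
    refine ⟨hl.1.1, hl.2, ?_⟩
    have h6 : (l.1 : ℝ) ≤ tow h := by exact_mod_cast hl.1.2
    have h7 : (tow h : ℝ) < tow (h + 1) := by
      have : tow h < tow (h + 1) := Nat.lt_two_pow_self
      exact_mod_cast this
    have h8 : lam * (l.1 : ℝ) ≤ 1 * l.1 := mul_le_mul_of_nonneg_right hlam1 (Nat.cast_nonneg _)
    linarith)
  have h6 : (hF.toFinset.filter fun l => ¬ n₀ ≤ l.1).card ≤ hF0.toFinset.card := by
    apply Finset.card_le_card
    intro l hl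
    rw [Finset.mem_filter, Set.Finite.mem_toFinset] at hl
    rw [Set.Finite.mem_toFinset]
    exact ⟨hl.1.1, by omega⟩
  omega

/-- **Diophantine multipliers.** -/
theorem dio (ha : 1 < a) (hb : 1 < b) (hc : 0 < c) {κ : ℝ} {μ : ℕ} (hκ : 0 < κ)
    (hdio : ∀ j : ℕ, 1 ≤ j → ∀ l : ℤ, κ / (j : ℝ) ^ μ ≤ |(j : ℝ) * log c - l * log b|) :
    ∃ C : ℝ, ∀ x : ℝ, 2 ≤ x → ∀ h : ℕ, log x / log a ≤ tow h →
      |((PY a b c x (tow h)).ncard : ℝ) - log x ^ 2 / (log a * log b)| ≤ C * log x + h := by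
  obtain ⟨C₁, hC₁, hbulk⟩ := bulk ha hb (G := |log c|) (abs_nonneg _)
  obtain ⟨C₂, hthin⟩ := dio_thin ha hb hκ hdio
  have hl2 : 0 < log 2 := log_pos (by norm_num)
  refine ⟨C₁ + C₂ / log 2, fun x hx h hY => ?_⟩
  obtain ⟨b1, b2, b3⟩ := hbulk c hc le_rfl x hx
  have hF := W_fin (a := a) (c := c) hb (tow h)
  have hsub : {p | p ∈ K a b c x ∧ (p.1 : ℝ) ≤ tow h} ⊆ {p | p ∈ W a b c ∧ p.1 ≤ tow h} := by
    rintro p ⟨h1, h2⟩
    exact ⟨(K_sub ha hb hc hx h1).1, by exact_mod_cast h2⟩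
  have hR : ({p | p ∈ K a b c x ∧ (p.1 : ℝ) ≤ tow h}.ncard : ℝ) ≤ h + C₂ := by
    have h1 := (Set.ncard_le_ncard hsub hF).trans (hthin h)
    exact_mod_cast h1
  obtain ⟨-, r2, r3⟩ := assemble ha hb hc hx hY b1 b2 b3 (hF.subset hsub) hR
  have hlx : log 2 ≤ log x := Real.log_le_log (by norm_num) hx
  have h3 : (C₂ : ℝ) ≤ C₂ / log 2 * log x := by
    rw [div_mul_eq_mul_div, le_div_iff₀ hl2]
    exact mul_le_mul_of_nonneg_left hlx (Nat.cast_nonneg _)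
  have h4 : (0 : ℝ) ≤ C₂ / log 2 * log x := (Nat.cast_nonneg _).trans h3
  have h5 : (0 : ℝ) ≤ h := Nat.cast_nonneg h
  have e : (C₁ + C₂ / log 2) * log x = C₁ * log x + C₂ / log 2 * log x := by ring
  rw [e, abs_le]
  constructor <;> linarith

/-- `2 ^ r e ^ s` is a Diophantine multiplier for `b = e` -/
theorem dio_two (r s : ℚ) (hr : r ≠ 0) : ∃ κ : ℝ, 0 < κ ∧ ∀ j : ℕ, 1 ≤ j → ∀ l : ℤ,
    κ / (j : ℝ) ^ 3000 ≤ |(j : ℝ) * log (2 ^ (r : ℝ) * exp s) - l * log (exp 1)| := by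
  obtain ⟨c₀, hc₀, hm⟩ := Pool.Agent.TH50.DQ.MeaT.measure_two
  have hrn : r.num ≠ 0 := Rat.num_ne_zero.2 hr
  have hrd : (0 : ℝ) < r.den := by exact_mod_cast r.den_pos
  have hsd : (0 : ℝ) < s.den := by exact_mod_cast s.den_pos
  have hrnR : 0 < |(r.num : ℝ)| := by
    rw [abs_pos]
    exact_mod_cast hrn
  set Z : ℝ := |(r.num : ℝ)| * s.den with hZ
  have hZ0 : 0 < Z := by positivity
  refine ⟨c₀ / (Z ^ 3000 * (r.den * s.den)), by positivity, fun j hj l => ?_⟩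
  have hj0 : (0 : ℝ) < j := by exact_mod_cast hj
  have h1 := hm ((j : ℤ) * r.num * s.den) 0 ((j : ℤ) * s.num * r.den - l * (r.den * s.den)) (by
    left
    have hsd' : (s.den : ℤ) ≠ 0 := by exact_mod_cast s.den_nz
    have hj' : (j : ℤ) ≠ 0 := by exact_mod_cast (by omega : j ≠ 0)
    exact mul_ne_zero (mul_ne_zero hj' hrn) hsd')
  have e1 : log (2 ^ (r : ℝ) * exp s) = r * log 2 + s := by
    rw [Real.log_mul (by positivity) (Real.exp_pos _).ne', Real.log_rpow (by norm_num),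
      Real.log_exp]
  have e2 : (r : ℝ) = r.num / r.den := Rat.cast_def r
  have e3 : (s : ℝ) = s.num / s.den := Rat.cast_def s
  rw [e1, Real.log_exp, mul_one]
  have e4 : ((((j : ℤ) * s.num * r.den - l * (r.den * s.den) : ℤ) : ℝ) +
      (((j : ℤ) * r.num * s.den : ℤ) : ℝ) * Real.log 2 +
      ((0 : ℤ) : ℝ) * ∑' k : ℕ, (1 / 2 : ℝ) ^ (k + 1) / ((k : ℝ) + 1) ^ 2) =
      (r.den * s.den : ℝ) * ((j : ℝ) * (r * log 2 + s) - l) := by
    rw [e2, e3]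
    push_cast
    field_simp
    ring
  rw [e4, abs_mul, abs_of_pos (by positivity : (0 : ℝ) < r.den * s.den)] at h1
  have e5 : max |((((j : ℤ) * r.num * s.den : ℤ)) : ℝ)| |((0 : ℤ) : ℝ)| = j * Z := by
    rw [Int.cast_zero, abs_zero, max_eq_left (abs_nonneg _)]
    push_cast
    rw [abs_mul, abs_mul, abs_of_pos hj0, abs_of_pos hsd, hZ]
    ring
  rw [e5, mul_pow] at h1
  have e6 : c₀ / (Z ^ 3000 * (r.den * s.den)) / (j : ℝ) ^ 3000 =
      c₀ / ((j : ℝ) ^ 3000 * Z ^ 3000) / (r.den * s.den) := by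
    field_simp
  rw [e6, div_le_iff₀ (by positivity)]
  linarith

end Pool.Agent.Q127.NC
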