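import Pool.Agent.Q127.NC.TwoSol

/-!
# Generic multipliers
-/

set_option autoImplicit false

namespace Pool.Agent.Q127.NC

open Real Filter Set Topology
open Pool.Agent.H491R3.PE

variable {a b c : ℝ}

/-- natural combinations are dense -/
theorem nat_dense {A B : ℝ} (hA : 0 < A) (hB : 0 < B) (hirr : Irrational (A / B)) (k : ℕ) (t : ℝ)
    {δ : ℝ} (hδ : 0 < δ) : ∃ n m : ℕ, k ≤ n ∧ |(n : ℝ) * A - m * B - t| < δ := by
  -- integers first
  obtain ⟨n₁, m₁, h1⟩ : ∃ n m : ℤ, |(n : ℝ) * A - m * B - t| < δ / 2 := by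
    have hd : Dense (AddSubgroup.closure {A, B} : Set ℝ) :=
      dense_addSubgroupClosure_pair_iff.2 hirr
    obtain ⟨y, hy1, hy2⟩ := Metric.dense_iff.1 hd t (δ / 2) (by positivity)
    rw [SetLike.mem_coe, AddSubgroup.mem_closure_pair] at hy2
    obtain ⟨n, m, hnm⟩ := hy2
    refine ⟨n, -m, ?_⟩
    rw [Metric.mem_ball, Real.dist_eq] at hy1
    have e : (n : ℝ) * A - ((-m : ℤ) : ℝ) * B = y := by
      rw [← hnm]
      simp [zsmul_eq_mul]
    rw [e]
    exact hy1
  -- a large multiple of a very small combination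
  set R : ℕ := k + n₁.natAbs + m₁.natAbs + 1 with hR
  have hR0 : (0 : ℝ) < R := by
    have : 0 < R := by omega
    exact_mod_cast this
  set θ := A / B with hθ
  have hθ0 : 0 < θ := by positivity
  obtain ⟨N, hN⟩ := exists_nat_gt (max (2 * B * R / δ) (1 / θ))
  obtain ⟨j, i, hi0, hiN, hji⟩ := Real.exists_int_int_abs_mul_sub_le θ (n := N + 1) (by omega)
  have hN1 : 2 * B * R / δ < N := (le_max_left _ _).trans_lt hN
  have hN2 : 1 / θ < N := (le_max_right _ _).trans_lt hN
  have hi1 : (1 : ℝ) ≤ i := by exact_mod_cast hi0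
  have hsm : |(i : ℝ) * θ - j| < 1 / (N + 1) := by
    refine hji.trans_lt ?_
    push_cast
    apply one_div_lt_one_div_of_lt (by positivity)
    linarith
  have hj1 : 1 ≤ j := by
    by_contra hcon
    have h2 : j ≤ 0 := by omega
    have h3 : (j : ℝ) ≤ 0 := by exact_mod_cast h2
    have h4 : θ ≤ |(i : ℝ) * θ - j| := by
      refine le_trans ?_ (le_abs_self _)
      nlinarith
    rw [div_lt_iff₀ hθ0] at hN2
    have h5 : θ < 1 / (N + 1) := h4.trans_lt hsm
    rw [lt_div_iff₀ (by positivity)] at h5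
    nlinarith
  have hn : 0 ≤ n₁ + R * i := by
    have h2 : (R : ℤ) * 1 ≤ R * i := mul_le_mul_of_nonneg_left (by omega) (by positivity)
    have h3 : (R : ℤ) = k + |n₁| + |m₁| + 1 := by
      rw [hR]
      push_cast
      ring
    have h4 := neg_abs_le n₁
    have h5 := abs_nonneg m₁
    have h6 : (0 : ℤ) ≤ k := by positivity
    linarith
  have hnk : (k : ℤ) ≤ n₁ + R * i := by
    have h2 : (R : ℤ) * 1 ≤ R * i := mul_le_mul_of_nonneg_left (by omega) (by positivity)
    have h3 : (R : ℤ) = k + |n₁| + |m₁| + 1 := by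
      rw [hR]
      push_cast
      ring
    have h4 := neg_abs_le n₁
    have h5 := abs_nonneg m₁
    linarith
  have hm : 0 ≤ m₁ + R * j := by
    have h2 : (R : ℤ) * 1 ≤ R * j := mul_le_mul_of_nonneg_left (by omega) (by positivity)
    have h3 : (R : ℤ) = k + |n₁| + |m₁| + 1 := by
      rw [hR]
      push_cast
      ring
    have h4 := neg_abs_le m₁
    have h5 := abs_nonneg n₁
    have h6 : (0 : ℤ) ≤ k := by positivity
    linarith
  refine ⟨(n₁ + R * i).toNat, (m₁ + R * j).toNat, by omega, ?_⟩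
  have e1 : (((n₁ + R * i).toNat : ℕ) : ℝ) = (n₁ : ℝ) + R * i := by
    have : (((n₁ + R * i).toNat : ℕ) : ℤ) = n₁ + R * i := Int.toNat_of_nonneg hn
    exact_mod_cast this
  have e2 : (((m₁ + R * j).toNat : ℕ) : ℝ) = (m₁ : ℝ) + R * j := by
    have : (((m₁ + R * j).toNat : ℕ) : ℤ) = m₁ + R * j := Int.toNat_of_nonneg hm
    exact_mod_cast this
  rw [e1, e2]
  have hAθ : A = θ * B := by rw [hθ]; field_simp
  have e3 : ((n₁ : ℝ) + R * i) * A - ((m₁ : ℝ) + R * j) * B - t =
      ((n₁ : ℝ) * A - m₁ * B - t) + R * B * ((i : ℝ) * θ - j) := by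
    rw [hAθ]
    ring
  rw [e3]
  refine (abs_add_le _ _).trans_lt ?_
  have h7 : |(R : ℝ) * B * ((i : ℝ) * θ - j)| < δ / 2 := by
    rw [abs_mul, abs_of_pos (by positivity : 0 < (R : ℝ) * B)]
    have h8 : (R : ℝ) * B * |(i : ℝ) * θ - j| < R * B * (1 / (N + 1)) :=
      mul_lt_mul_of_pos_left hsm (by positivity)
    refine h8.trans ?_
    rw [mul_one_div, div_lt_iff₀ (by positivity)]
    rw [div_lt_iff₀ hδ] at hN1
    nlinarith
  linarith

/-- **Generic multipliers.** -/
theorem gen (ha : 1 < a) (hb : 1 < b) (hirr : Irrational (log a / log b)) :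
    ∀ᶠ c in residual ℝ, 0 < c → ∀ x : ℝ, 0 < x → (P a b c x).Infinite := by
  have hA : 0 < log a := log_pos ha
  have hB : 0 < log b := log_pos hb
  set O : ℕ → Set ℝ := fun k => {c : ℝ | c < 0} ∪ ⋃ n : ℕ, ⋃ m : ℕ, ⋃ _ : k ≤ n,
    {c : ℝ | |a ^ n - c * b ^ m| < 1 / ((k : ℝ) + 1)} with hO
  have hopen : ∀ k, IsOpen (O k) := by
    intro k
    refine IsOpen.union (isOpen_lt continuous_id continuous_const) ?_
    refine isOpen_iUnion fun n => isOpen_iUnion fun m => isOpen_iUnion fun _ => ?_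
    exact isOpen_lt (by fun_prop) continuous_const
  have hdense : ∀ k, Dense (O k) := by
    intro k
    rw [Metric.dense_iff]
    intro c r hr
    rcases lt_or_ge c 0 with hc | hc
    · exact ⟨c, Metric.mem_ball_self hr, Or.inl hc⟩
    · set c₁ := c + r / 2 with hc₁
      have hc₁0 : 0 < c₁ := by linarith
      have hcont : ContinuousAt exp (log c₁) := Real.continuous_exp.continuousAt
      have hball : Metric.ball c r ∈ 𝓝 (exp (log c₁)) := by
        rw [Real.exp_log hc₁0]
        apply Metric.isOpen_ball.mem_nhds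
        rw [Metric.mem_ball, Real.dist_eq, hc₁, add_sub_cancel_left, abs_of_pos (by positivity)]
        linarith
      obtain ⟨δ, hδ, h1⟩ := Metric.mem_nhds_iff.1 (hcont hball)
      obtain ⟨n, m, hn, hnm⟩ := nat_dense hA hB hirr k (log c₁) hδ
      have e : exp ((n : ℝ) * log a - m * log b) = a ^ n / b ^ m := by
        rw [Real.exp_sub, Real.exp_nat_mul, Real.exp_nat_mul, Real.exp_log (by linarith),
          Real.exp_log (by linarith)]
      refine ⟨a ^ n / b ^ m, ?_, Or.inr ?_⟩
      · rw [← e]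
        apply h1
        rw [Metric.mem_ball, Real.dist_eq]
        exact hnm
      · simp only [mem_iUnion]
        refine ⟨n, m, hn, ?_⟩
        show |a ^ n - a ^ n / b ^ m * b ^ m| < 1 / ((k : ℝ) + 1)
        rw [div_mul_cancel₀ _ (by positivity), sub_self, abs_zero]
        positivity
  have hres : ∀ᶠ c in residual ℝ, ∀ k, c ∈ O k := by
    rw [eventually_countable_forall]
    intro k
    exact residual_of_dense_open (hopen k) (hdense k)
  filter_upwards [hres] with c hcO hc x hx
  intro hfin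
  -- a bound for `n`
  obtain ⟨N, hN⟩ := (hfin.image Prod.fst).bddAbove
  obtain ⟨M, hM⟩ := exists_nat_gt (1 / x)
  rcases hcO (max (N + 1) M) with h1 | h1
  · exact absurd hc (not_lt.2 (le_of_lt h1))
  · simp only [mem_iUnion] at h1
    obtain ⟨n, m, hn, h2⟩ := h1
    have h3 : (n, m) ∈ P a b c x := by
      show |a ^ n - c * b ^ m| ≤ x
      refine (le_of_lt h2).trans ?_
      rw [div_le_iff₀ (by positivity)]
      rw [div_lt_iff₀ hx] at hM
      have h4 : (M : ℝ) ≤ ((max (N + 1) M : ℕ) : ℝ) := by exact_mod_cast le_max_right _ _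
      nlinarith
    have h4 := hN ⟨(n, m), h3, rfl⟩
    have h5 : N + 1 ≤ n := (le_max_left _ _).trans hn
    simp only at h4
    omega

end Pool.Agent.Q127.NC
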