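import Pool.Agent.Q127.NC.TwoSol
import Pool.Agent.Y856.Metric.HC

/-!
# The multipliers `c` with infinitely many near misses
-/

set_option autoImplicit false

namespace Pool.Agent.Q127.NC

open Real Filter Set Topology MeasureTheory MeasureTheory.Measure
open scoped ENNReal NNReal
open Pool.Agent.H491R3.PE

variable {a b c : ℝ}

/-- finitely many near misses: the full count -/
theorem fin_count (ha : 1 < a) (hb : 1 < b) (hc : 0 < c) (hW : (W a b c).Finite) :
    ∃ C : ℝ, ∀ x : ℝ, 2 ≤ x → (P a b c x).Finite ∧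
      |((P a b c x).ncard : ℝ) - log x ^ 2 / (log a * log b)| ≤ C * log x := by
  obtain ⟨C, hC0, hbulk⟩ := bulk ha hb (G := |log c|) (abs_nonneg _)
  have hl2 : 0 < log 2 := log_pos (by norm_num)
  refine ⟨C + (W a b c).ncard / log 2, fun x hx => ?_⟩
  obtain ⟨b1, b2, b3⟩ := hbulk c hc le_rfl x hx
  have hKW : K a b c x ⊆ W a b c := fun p hp => (K_sub ha hb hc hx hp).1
  have hKf := hW.subset hKW
  have hlx : log 2 ≤ log x := Real.log_le_log (by norm_num) hx
  rw [P_eq]
  have hfin := b1.union hKf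
  refine ⟨hfin, ?_⟩
  have h1 : ((Bx a b c x).ncard : ℝ) ≤ ((NB a b c x ∪ K a b c x).ncard : ℝ) := by
    exact_mod_cast Set.ncard_le_ncard ((Bx_sub_NB ha hb hc hx).trans Set.subset_union_left) hfin
  have h2 : ((NB a b c x ∪ K a b c x).ncard : ℝ) ≤ (NB a b c x).ncard + (W a b c).ncard := by
    have u1 := Set.ncard_union_le (NB a b c x) (K a b c x)
    have u2 := Set.ncard_le_ncard hKW hW
    exact_mod_cast (by omega : (NB a b c x ∪ K a b c x).ncard ≤ (NB a b c x).ncard + (W a b c).ncard)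
  have h3 : ((W a b c).ncard : ℝ) ≤ (W a b c).ncard / log 2 * log x := by
    rw [div_mul_eq_mul_div, le_div_iff₀ hl2]
    exact mul_le_mul_of_nonneg_left hlx (Nat.cast_nonneg _)
  have h4 : (0 : ℝ) ≤ (W a b c).ncard / log 2 * log x := by
    refine le_trans (Nat.cast_nonneg _) h3
  have e : (C + (W a b c).ncard / log 2) * log x = C * log x + (W a b c).ncard / log 2 * log x := by
    ring
  rw [e, abs_le]
  constructor <;> linarith

theorem ball_dim (ha : 1 < a) (hb : 1 < b) (j : ℕ) :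
    dimH {l : ℝ | |l| ≤ j ∧ (W a b (exp l)).Infinite} = 0 := by
  classical
  have hA : 0 < log a := log_pos ha
  have hB : 0 < log b := log_pos hb
  have hs := one_lt_sqrt ha
  have hs0 : 0 < √a := by linarith
  set M : ℕ := ⌊(2 * (j : ℝ) + 2) / log b⌋₊ + 1 with hM
  set m₀ : ℕ → ℤ := fun n => ⌈((n : ℝ) * log a - j - 1) / log b⌉ with hm₀
  set I : ℕ × Fin M → Set ℝ := fun t =>
    {l : ℝ | |(t.1 : ℝ) * log a - ((m₀ t.1 : ℝ) + (t.2 : ℕ)) * log b - l| ≤ 2 / √a ^ t.1} with hI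
  have hdiam : ∀ t, Metric.ediam (I t) ≤ ENNReal.ofReal (4 / √a ^ t.1) := by
    intro t
    apply Metric.ediam_le
    intro x hx y hy
    rw [edist_dist, Real.dist_eq]
    apply ENNReal.ofReal_le_ofReal
    have h1 : |(t.1 : ℝ) * log a - ((m₀ t.1 : ℝ) + (t.2 : ℕ)) * log b - x| ≤ 2 / √a ^ t.1 := hx
    have h2 : |(t.1 : ℝ) * log a - ((m₀ t.1 : ℝ) + (t.2 : ℕ)) * log b - y| ≤ 2 / √a ^ t.1 := hy
    have e : x - y = ((t.1 : ℝ) * log a - ((m₀ t.1 : ℝ) + (t.2 : ℕ)) * log b - y) -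
        ((t.1 : ℝ) * log a - ((m₀ t.1 : ℝ) + (t.2 : ℕ)) * log b - x) := by ring
    rw [e]
    refine (abs_sub _ _).trans ?_
    have e2 : 4 / √a ^ t.1 = 2 / √a ^ t.1 + 2 / √a ^ t.1 := by ring
    rw [e2]
    linarith
  have hinf : ∀ l ∈ {l : ℝ | |l| ≤ j ∧ (W a b (exp l)).Infinite}, {t | l ∈ I t}.Infinite := by
    rintro l ⟨hl, hW⟩
    rw [abs_le] at hl
    have key : ∀ p ∈ W a b (exp l), ∃ i : Fin M, (p.2 : ℤ) = m₀ p.1 + (i : ℕ) := by
      rintro p ⟨h1, h2⟩
      rw [Real.log_exp] at h2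
      have h3 : 2 / √a ^ p.1 ≤ 1 := by
        rw [div_le_one (by positivity)]
        exact h1
      have h4 := abs_le.1 (h2.trans h3)
      have h5 : m₀ p.1 ≤ (p.2 : ℤ) := by
        rw [hm₀]
        apply Int.ceil_le.2
        rw [div_le_iff₀ hB]
        push_cast
        linarith [h4.2, hl.2]
      have h6 : ((p.2 : ℤ) - m₀ p.1 : ℝ) ≤ (2 * (j : ℝ) + 2) / log b := by
        have h7 : ((p.1 : ℝ) * log a - j - 1) / log b ≤ (m₀ p.1 : ℝ) := Int.le_ceil _
        have h8 : (p.2 : ℝ) ≤ ((p.1 : ℝ) * log a - j - 1) / log b + (2 * (j : ℝ) + 2) / log b := by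
          rw [← add_div, le_div_iff₀ hB]
          linarith [h4.1, hl.1]
        push_cast
        linarith
      have h7 : ((p.2 : ℤ) - m₀ p.1).toNat < M := by
        rw [hM, Nat.lt_succ_iff]
        apply Nat.le_floor
        have h9 : ((((p.2 : ℤ) - m₀ p.1).toNat : ℕ) : ℝ) = ((p.2 : ℤ) - m₀ p.1 : ℝ) := by
          have : ((((p.2 : ℤ) - m₀ p.1).toNat : ℕ) : ℤ) = (p.2 : ℤ) - m₀ p.1 :=
            Int.toNat_of_nonneg (by omega)
          exact_mod_cast this
        rw [h9]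
        exact h6
      refine ⟨⟨_, h7⟩, ?_⟩
      show (p.2 : ℤ) = m₀ p.1 + ((((p.2 : ℤ) - m₀ p.1).toNat : ℕ) : ℤ)
      rw [Int.toNat_of_nonneg (by omega)]
      ring
    choose! i hi using key
    refine Set.infinite_of_injOn_mapsTo (f := fun p : ℕ × ℕ => (p.1, i p)) (s := W a b (exp l)) ?_ ?_ hW
    · intro p hp q hq hpq
      have h1 : p.1 = q.1 := (Prod.ext_iff.1 hpq).1
      have h2 : i p = i q := (Prod.ext_iff.1 hpq).2
      have h3 := hi p hp
      have h4 := hi q hq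
      rw [h1, h2] at h3
      refine Prod.ext h1 ?_
      have : (p.2 : ℤ) = q.2 := by rw [h3, h4]
      exact_mod_cast this
    · rintro p hp
      have h3 := hi p hp
      have h4 := hp.2
      rw [Real.log_exp] at h4
      show |(p.1 : ℝ) * log a - ((m₀ p.1 : ℝ) + (i p : ℕ)) * log b - l| ≤ 2 / √a ^ p.1
      have h5 : (p.2 : ℝ) = (m₀ p.1 : ℝ) + (i p : ℕ) := by exact_mod_cast h3
      rw [← h5]
      exact h4
  have hmeas : ∀ d : ℝ≥0, 0 < d →
      dimH {l : ℝ | |l| ≤ j ∧ (W a b (exp l)).Infinite} ≤ d := by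
    intro d hd
    apply dimH_le_of_hausdorffMeasure_ne_top
    apply Pool.Agent.Y856.hausdorff_cantelli I (d : ℝ) (by exact_mod_cast hd) _ _ hinf
    have hd0 : (0 : ℝ) < d := by exact_mod_cast hd
    have hsumm : Summable fun t : ℕ × Fin M => ((4 : ℝ) / √a ^ t.1) ^ (d : ℝ) := by
      have h1 : Summable fun n : ℕ => ((4 : ℝ) / √a ^ n) ^ (d : ℝ) := by
        have e : (fun n : ℕ => ((4 : ℝ) / √a ^ n) ^ (d : ℝ)) =
            fun n : ℕ => (4 : ℝ) ^ (d : ℝ) * ((√a ^ (d : ℝ))⁻¹) ^ n := by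
          funext n
          rw [Real.div_rpow (by norm_num) (by positivity), div_eq_mul_inv, inv_pow]
          congr 2
          rw [← Real.rpow_natCast, ← Real.rpow_natCast, ← Real.rpow_mul hs0.le,
            ← Real.rpow_mul hs0.le, mul_comm]
        rw [e]
        apply Summable.mul_left
        apply summable_geometric_of_lt_one (by positivity)
        apply inv_lt_one_of_one_lt₀
        exact Real.one_lt_rpow hs hd0
      have h2 : Summable fun i : Fin M => (1 : ℝ) := Summable.of_finite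
      have h3 := h1.mul_of_nonneg h2 (fun n => by positivity) (fun i => by norm_num)
      simpa using h3
    have hle : ∑' t, Metric.ediam (I t) ^ (d : ℝ) ≤
        ∑' t : ℕ × Fin M, ENNReal.ofReal (((4 : ℝ) / √a ^ t.1) ^ (d : ℝ)) := by
      apply ENNReal.tsum_le_tsum
      intro t
      rw [← ENNReal.ofReal_rpow_of_pos (by positivity)]
      exact ENNReal.rpow_le_rpow (hdiam t) hd0.le
    exact ne_top_of_le_ne_top hsumm.tsum_ofReal_ne_top hle
  by_contra hne
  have hpos : 0 < dimH {l : ℝ | |l| ≤ j ∧ (W a b (exp l)).Infinite} := pos_iff_ne_zero.2 hne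
  obtain ⟨d, h1, h2⟩ := ENNReal.lt_iff_exists_nnreal_btwn.1 hpos
  exact absurd (hmeas d (by exact_mod_cast h1)) (not_le.2 h2)

/-- **The exceptional multipliers.** -/
theorem metric (ha : 1 < a) (hb : 1 < b) : ∃ E : Set ℝ, dimH E = 0 ∧ ∀ c : ℝ, 0 < c → c ∉ E →
    ∃ C : ℝ, ∀ x : ℝ, 2 ≤ x → (P a b c x).Finite ∧
      |((P a b c x).ncard : ℝ) - log x ^ 2 / (log a * log b)| ≤ C * log x := by
  refine ⟨exp '' {l : ℝ | (W a b (exp l)).Infinite}, ?_, fun c hc hcE => ?_⟩
  · rw [← nonpos_iff_eq_zero]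
    have h1 : dimH (exp '' {l : ℝ | (W a b (exp l)).Infinite}) ≤
        dimH {l : ℝ | (W a b (exp l)).Infinite} :=
      ContDiffOn.dimH_image_le (s := Set.univ) (Real.contDiff_exp.contDiffOn) convex_univ
        (Set.subset_univ _)
    refine h1.trans ?_
    have e : {l : ℝ | (W a b (exp l)).Infinite} =
        ⋃ j : ℕ, {l : ℝ | |l| ≤ j ∧ (W a b (exp l)).Infinite} := by
      ext l
      simp only [mem_iUnion, mem_ofPred_eq]
      constructor
      · intro h
        obtain ⟨j, hj⟩ := exists_nat_ge |l|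
        exact ⟨j, hj, h⟩
      · rintro ⟨j, -, h⟩
        exact h
    rw [e, dimH_iUnion]
    exact iSup_le fun j => (ball_dim ha hb j).le
  · apply fin_count ha hb hc
    by_contra hinf
    apply hcE
    refine ⟨log c, ?_, Real.exp_log hc⟩
    show (W a b (exp (log c))).Infinite
    rw [Real.exp_log hc]
    exact hinf

end Pool.Agent.Q127.NC
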