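import Pool.Agent.Q127.NC.Base

/-!
# The near misses of `a ^ n` and `c b ^ m`
-/

set_option autoImplicit false

namespace Pool.Agent.Q127.NC

open Real Filter Set
open Pool.Agent.H491R3.PE

variable {a b c : ℝ}

/-- the near misses, in logarithmic form -/
def W (a b c : ℝ) : Set (ℕ × ℕ) :=
  {p | 2 ≤ √a ^ p.1 ∧ |(p.1 : ℝ) * log a - p.2 * log b - log c| ≤ 2 / √a ^ p.1}

theorem one_lt_sqrt (ha : 1 < a) : 1 < √a := by
  rw [Real.lt_sqrt (by norm_num)]
  linarith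

theorem K_sub (ha : 1 < a) (hb : 1 < b) (hc : 0 < c) {x : ℝ} (hx : 2 ≤ x) {p : ℕ × ℕ}
    (hp : p ∈ K a b c x) : p ∈ W a b c ∧ x < √a ^ p.1 := by
  obtain ⟨h3, h2⟩ := hp
  rw [sq_sqrt_pow ha] at h2 h3
  set S := √a ^ p.1 with hS
  have hs : 0 < √a := Real.sqrt_pos.2 (by linarith)
  have hS0 : 0 < S := by positivity
  have hxS : x < S := lt_of_pow_lt_pow_left₀ 2 hS0.le h2
  refine ⟨⟨by linarith, ?_⟩, hxS⟩
  have hb0 : 0 < c * b ^ p.2 := by positivity
  have h4 : |c * b ^ p.2 / S ^ 2 - 1| ≤ 1 / S := by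
    have e : c * b ^ p.2 / S ^ 2 - 1 = -((S ^ 2 - c * b ^ p.2) / S ^ 2) := by
      field_simp
      ring
    rw [e, abs_neg, abs_div, abs_of_pos (by positivity : 0 < S ^ 2), div_le_div_iff₀ (by positivity) hS0]
    have : |S ^ 2 - c * b ^ p.2| ≤ S := h3.trans hxS.le
    calc |S ^ 2 - c * b ^ p.2| * S ≤ S * S := mul_le_mul_of_nonneg_right this hS0.le
      _ = 1 * S ^ 2 := by ring
  have h5 : 1 / S ≤ 1 / 2 := by
    apply one_div_le_one_div_of_le (by norm_num)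
    linarith
  have h6 := abs_log_le (h4.trans h5)
  have e2 : log (c * b ^ p.2 / S ^ 2) = -((p.1 : ℝ) * log a - p.2 * log b - log c) := by
    rw [Real.log_div hb0.ne' (by positivity), ← sq_sqrt_pow ha, Real.log_pow,
      Real.log_mul hc.ne' (by positivity), Real.log_pow]
    ring
  rw [e2, abs_neg] at h6
  refine h6.trans ?_
  have : 2 / S = 2 * (1 / S) := by ring
  rw [this]
  linarith

/-- the difference of two near misses -/
theorem W_diff (ha : 1 < a) {p q : ℕ × ℕ} (hp : p ∈ W a b c) (hq : q ∈ W a b c)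
    (h : p.1 ≤ q.1) :
    |((q.1 : ℝ) - p.1) * log a - ((q.2 : ℝ) - p.2) * log b| ≤ 4 / √a ^ p.1 := by
  have hs := one_lt_sqrt ha
  have h1 := hp.2
  have h2 := hq.2
  have h3 : 2 / √a ^ q.1 ≤ 2 / √a ^ p.1 := by
    apply div_le_div_of_nonneg_left (by norm_num) (by positivity)
    exact pow_le_pow_right₀ hs.le h
  have e : ((q.1 : ℝ) - p.1) * log a - ((q.2 : ℝ) - p.2) * log b =
      ((q.1 : ℝ) * log a - q.2 * log b - log c) - ((p.1 : ℝ) * log a - p.2 * log b - log c) := by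
    ring
  rw [e]
  refine (abs_sub _ _).trans ?_
  have e2 : 4 / √a ^ p.1 = 2 / √a ^ p.1 + 2 / √a ^ p.1 := by ring
  rw [e2]
  linarith

theorem four_div_small (ha : 1 < a) {B : ℝ} (hB : 0 < B) : ∃ n₀ : ℕ, ∀ n ≥ n₀,
    4 / √a ^ n < B := by
  obtain ⟨n₀, h⟩ := eventually_small ha hB
  refine ⟨max n₀ 1, fun n hn => ?_⟩
  have h1 := h n ((le_max_left _ _).trans hn)
  have h2 : (1 : ℝ) ≤ n := by exact_mod_cast (le_max_right _ _).trans hn
  have hs := one_lt_sqrt ha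
  refine lt_of_le_of_lt ?_ h1
  apply div_le_div_of_nonneg_right _ (by positivity)
  linarith

/-- few near misses with the same `n` -/
theorem W_inj (ha : 1 < a) (hb : 1 < b) : ∃ n₀ : ℕ, ∀ c : ℝ, ∀ p ∈ W a b c, ∀ q ∈ W a b c,
    n₀ ≤ p.1 → p.1 = q.1 → p = q := by
  have hB : 0 < log b := log_pos hb
  obtain ⟨n₀, h⟩ := four_div_small ha hB
  refine ⟨n₀, fun c p hp q hq hn hpq => ?_⟩
  have h1 := W_diff ha hp hq hpq.le
  have h2 := h p.1 hn
  rw [hpq, sub_self, zero_mul, zero_sub, abs_neg, abs_mul, abs_of_pos hB] at h1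
  rw [hpq] at h2
  have h3 : |(q.2 : ℝ) - p.2| < 1 := by
    by_contra h4
    rw [not_lt] at h4
    have := mul_le_mul_of_nonneg_right h4 hB.le
    linarith
  have h4 : |(q.2 : ℤ) - p.2| < 1 := by exact_mod_cast h3
  rw [Int.abs_lt_one_iff] at h4
  exact Prod.ext hpq (by omega)

/-- sets of pairs with separated first coordinates -/
theorem sep_count {S : Set (ℕ × ℕ)} {D : ℕ} {Y : ℝ} (hY : 0 ≤ Y) (h1 : ∀ p ∈ S, (p.1 : ℝ) ≤ Y)
    (h2 : ∀ p ∈ S, ∀ q ∈ S, p.1 = q.1 → p = q)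
    (h3 : ∀ p ∈ S, ∀ q ∈ S, p.1 < q.1 → p.1 + D < q.1) :
    S.Finite ∧ (S.ncard : ℝ) ≤ Y / (D + 1) + 1 := by
  classical
  set f : ℕ × ℕ → ℕ := fun p => p.1 / (D + 1) with hf
  set T : Finset ℕ := Finset.range (⌊Y / (D + 1)⌋₊ + 1) with hT
  have hY2 : 0 ≤ Y / ((D : ℝ) + 1) := by positivity
  have hmaps : Set.MapsTo f S (T : Set ℕ) := by
    intro p hp
    rw [Finset.mem_coe, hT, Finset.mem_range, Nat.lt_succ_iff, Nat.le_floor_iff hY2]
    have h4 : ((f p : ℕ) : ℝ) ≤ (p.1 : ℝ) / ((D + 1 : ℕ) : ℝ) := Nat.cast_div_le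
    push_cast at h4
    refine h4.trans ?_
    exact div_le_div_of_nonneg_right (h1 p hp) (by positivity)
  have hinj : Set.InjOn f S := by
    intro p hp q hq hpq
    apply h2 p hp q hq
    have key : ∀ p q : ℕ, p / (D + 1) = q / (D + 1) → q ≤ p + D := by
      intro p q h
      have e1 := Nat.div_add_mod p (D + 1)
      have e2 := Nat.div_add_mod q (D + 1)
      have e3 := Nat.mod_lt q (Nat.succ_pos D)
      rw [h] at e1
      have e4 := Nat.zero_le (p % (D + 1))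
      simp only [Nat.succ_eq_add_one] at e3
      omega
    rcases lt_trichotomy p.1 q.1 with h | h | h
    · have h5 := h3 p hp q hq h
      have h6 := key p.1 q.1 hpq
      omega
    · exact h
    · have h5 := h3 q hq p hp h
      have h6 := key q.1 p.1 hpq.symm
      omega
  have hfin : S.Finite := Set.Finite.of_injOn hmaps hinj T.finite_toSet
  refine ⟨hfin, ?_⟩
  have h4 := Set.ncard_le_ncard_of_injOn f hmaps hinj T.finite_toSet
  rw [Set.ncard_coe_finset, hT, Finset.card_range] at h4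
  have h5 : (S.ncard : ℝ) ≤ ((⌊Y / ((D : ℝ) + 1)⌋₊ + 1 : ℕ) : ℝ) := by exact_mod_cast h4
  push_cast at h5
  have h6 := Nat.floor_le hY2
  linarith

theorem irr_sep (hb : 1 < b) (hirr : Irrational (log a / log b)) (D : ℕ) :
    ∃ δ : ℝ, 0 < δ ∧ ∀ d : ℕ, 1 ≤ d → d ≤ D → ∀ l : ℤ, δ ≤ |(d : ℝ) * log a - l * log b| := by
  have hB : 0 < log b := log_pos hb
  induction D with
  | zero => exact ⟨1, one_pos, fun d h1 h2 => by omega⟩
  | succ D ih =>
    obtain ⟨δ, hδ, h⟩ := ih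
    set θ := log a / log b with hθ
    have hA : log a = θ * log b := by rw [hθ]; field_simp
    set y := ((D + 1 : ℕ) : ℝ) * θ with hy
    have hyirr : Irrational y := by
      rw [hy]
      exact hirr.natCast_mul (by omega)
    have hpos : 0 < |y - round y| := by
      rw [abs_pos, sub_ne_zero]
      exact hyirr.ne_int _
    refine ⟨min δ (log b * |y - round y|), by positivity, fun d h1 h2 l => ?_⟩
    rcases Nat.lt_or_ge D d with h3 | h3
    · have hd : d = D + 1 := by omega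
      refine (min_le_right _ _).trans ?_
      have e : (d : ℝ) * log a - l * log b = (y - l) * log b := by
        rw [hA, hy, hd]
        ring
      rw [e, abs_mul, abs_of_pos hB, mul_comm]
      exact mul_le_mul_of_nonneg_right (round_le y l) hB.le
    · exact (min_le_left _ _).trans (h d h1 h3 l)

/-- few near misses when `log a / log b` is irrational -/
theorem irr_count (ha : 1 < a) (hb : 1 < b) (hirr : Irrational (log a / log b)) (D : ℕ) :
    ∃ x₀ : ℝ, 2 ≤ x₀ ∧ ∀ x : ℝ, x₀ ≤ x → ∀ c : ℝ, 0 < c → ∀ Y : ℝ, 0 ≤ Y →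
      {p | p ∈ K a b c x ∧ (p.1 : ℝ) ≤ Y}.Finite ∧
      ({p | p ∈ K a b c x ∧ (p.1 : ℝ) ≤ Y}.ncard : ℝ) ≤ Y / (D + 1) + 1 := by
  obtain ⟨n₀, hinj⟩ := W_inj ha hb
  obtain ⟨δ, hδ, hsep⟩ := irr_sep hb hirr D
  obtain ⟨n₁, hn₁⟩ := four_div_small ha hδ
  have hs := one_lt_sqrt ha
  refine ⟨max 2 (√a ^ max n₀ n₁), le_max_left _ _, fun x hx c hc Y hY => ?_⟩
  have hx2 : 2 ≤ x := (le_max_left _ _).trans hx
  have hlarge : ∀ p ∈ K a b c x, max n₀ n₁ < p.1 := by
    intro p hp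
    have h1 := (K_sub ha hb hc hx2 hp).2
    have h2 : √a ^ max n₀ n₁ < √a ^ p.1 := ((le_max_right _ _).trans hx).trans_lt h1
    exact (pow_lt_pow_iff_right₀ hs).1 h2
  apply sep_count hY
  · exact fun p hp => hp.2
  · rintro p ⟨hp, -⟩ q ⟨hq, -⟩ hpq
    exact hinj c p (K_sub ha hb hc hx2 hp).1 q (K_sub ha hb hc hx2 hq).1
      ((le_max_left _ _).trans (hlarge p hp).le) hpq
  · rintro p ⟨hp, -⟩ q ⟨hq, -⟩ hpq
    by_contra hcon
    rw [not_lt] at hcon
    have h1 := W_diff ha (K_sub ha hb hc hx2 hp).1 (K_sub ha hb hc hx2 hq).1 hpq.le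
    have h2 := hn₁ p.1 ((le_max_right _ _).trans (hlarge p hp).le)
    have h3 := hsep (q.1 - p.1) (by omega) (by omega) ((q.2 : ℤ) - p.2)
    rw [Nat.cast_sub hpq.le] at h3
    push_cast at h3
    linarith

end Pool.Agent.Q127.NC
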