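import Pool.Agent.Q127.NC.TwoSol

/-!
# The range `(log x) ^ 2` is sharp
-/

set_option autoImplicit false

namespace Pool.Agent.Q127.NC

open Real Filter Set Topology
open Pool.Agent.H491R3.PE

variable {a b c : ℝ}

/-- **No larger range.** -/
theorem sharp (hb : 1 < b) (Y : ℝ → ℝ)
    (hY : Tendsto (fun x : ℝ => Y x / log x ^ 2) atTop atTop) :
    ∀ᶠ a in residual ℝ, 1 < a → ∀ M : ℝ, ∃ᶠ x in atTop,
      M * log x ^ 2 ≤ ((PY a b 1 x (Y x)).ncard : ℝ) := by
  classical
  -- the scales
  have hsc : ∀ (q N : ℕ), ∃ x : ℝ, (N : ℝ) + 2 ≤ x ∧ (q * N : ℝ) * log x ^ 2 ≤ Y x := by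
    intro q N
    obtain ⟨x, h1, h2⟩ := ((hY.eventually_ge_atTop (q * N : ℝ)).and
      (eventually_ge_atTop ((N : ℝ) + 2))).exists
    refine ⟨x, h2, ?_⟩
    have hN : (0 : ℝ) ≤ N := Nat.cast_nonneg N
    have h3 : 0 < log x ^ 2 := by
      have := log_pos (show (1 : ℝ) < x by linarith)
      positivity
    rwa [le_div_iff₀ h3] at h1
  choose X hX1 hX2 using hsc
  -- the open sets
  set O : ℕ → Set ℝ := fun N => {a : ℝ | a < 1} ∪ ⋃ p : ℕ, ⋃ q : ℕ, ⋃ _ : 1 ≤ q,
    ⋂ k ∈ Finset.range (⌊Y (X q N) / q⌋₊ + 1), {a : ℝ | |a ^ (k * q) - b ^ (k * p)| < X q N}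
    with hO
  have hopen : ∀ N, IsOpen (O N) := by
    intro N
    refine IsOpen.union (isOpen_lt continuous_id continuous_const) ?_
    refine isOpen_iUnion fun p => isOpen_iUnion fun q => isOpen_iUnion fun _ => ?_
    refine isOpen_biInter_finset fun k _ => ?_
    exact isOpen_lt (by fun_prop) continuous_const
  have hmem : ∀ (N : ℕ) (r : ℚ), 0 < r → b ^ (r : ℝ) ∈ O N := by
    intro N r hr
    right
    have hnum : 0 < r.num := Rat.num_pos.2 hr
    simp only [mem_iUnion, mem_iInter]
    refine ⟨r.num.toNat, r.den, r.den_pos, fun k _ => ?_⟩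
    show |(b ^ (r : ℝ)) ^ (k * r.den) - b ^ (k * r.num.toNat)| < X r.den N
    have e : (b ^ (r : ℝ)) ^ (k * r.den) = b ^ (k * r.num.toNat) := by
      rw [← Real.rpow_natCast, ← Real.rpow_mul (by linarith), ← Real.rpow_natCast]
      congr 1
      have h1 : ((r.num.toNat : ℕ) : ℝ) = (r.num : ℝ) := by
        have : ((r.num.toNat : ℕ) : ℤ) = r.num := Int.toNat_of_nonneg hnum.le
        exact_mod_cast this
      push_cast
      rw [h1, Rat.cast_def]
      have h2 : (r.den : ℝ) ≠ 0 := by
        have := r.den_pos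
        positivity
      field_simp
    rw [e, sub_self, abs_zero]
    have := hX1 r.den N
    have hN : (0 : ℝ) ≤ N := Nat.cast_nonneg N
    linarith
  have hdense : ∀ N, Dense (O N) := by
    intro N
    rw [Metric.dense_iff]
    intro a r hr
    rcases lt_or_ge a 1 with ha | ha
    · exact ⟨a, Metric.mem_ball_self hr, Or.inl ha⟩
    · set t := log a / log b with ht
      have hB : 0 < log b := log_pos hb
      have ht0 : 0 ≤ t := div_nonneg (log_nonneg ha) hB.le
      have hbt : b ^ t = a := by
        rw [Real.rpow_def_of_pos (by linarith), ht, mul_div_cancel₀ _ hB.ne',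
          Real.exp_log (by linarith)]
      have hcont : ContinuousAt (fun s : ℝ => b ^ s) t :=
        (Real.continuous_const_rpow (by linarith : b ≠ 0)).continuousAt
      have hball : Metric.ball a r ∈ 𝓝 (b ^ t) := by
        rw [hbt]
        exact Metric.ball_mem_nhds a hr
      obtain ⟨δ, hδ, h1⟩ := Metric.mem_nhds_iff.1 (hcont hball)
      obtain ⟨s, hs1, hs2⟩ := exists_rat_btwn (show t < t + δ by linarith)
      refine ⟨b ^ (s : ℝ), h1 ?_, hmem N s ?_⟩
      · rw [Metric.mem_ball, Real.dist_eq, abs_of_pos (by linarith)]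
        linarith
      · have : (0 : ℝ) < s := by linarith
        exact_mod_cast this
  have hres : ∀ᶠ a in residual ℝ, ∀ N, a ∈ O N := by
    rw [eventually_countable_forall]
    intro N
    exact residual_of_dense_open (hopen N) (hdense N)
  filter_upwards [hres] with a haO ha M
  rw [frequently_atTop]
  intro x₀
  obtain ⟨N, hN⟩ := exists_nat_ge (max M x₀)
  have h1 := haO N
  rcases h1 with h1 | h1
  · exact absurd ha (not_lt.2 (le_of_lt h1))
  · simp only [mem_iUnion, mem_iInter] at h1
    obtain ⟨p, q, hq, h2⟩ := h1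
    refine ⟨X q N, ?_, ?_⟩
    · have := hX1 q N
      have := le_max_right M x₀
      linarith
    · set x := X q N with hx
      have hx1 := hX1 q N
      have hx2 := hX2 q N
      rw [← hx] at hx1 hx2
      have hN0 : (0 : ℝ) ≤ N := Nat.cast_nonneg N
      have hL : 0 < log x := log_pos (by linarith)
      have hq0 : (0 : ℝ) < q := by exact_mod_cast hq
      have hY0 : 0 ≤ Y x := by
        refine le_trans ?_ hx2
        positivity
      set k₁ := ⌊Y x / q⌋₊ with hk₁
      set T : Finset (ℕ × ℕ) := (Finset.range (k₁ + 1)).image fun k => (k * q, k * p) with hT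
      have hTcard : T.card = k₁ + 1 := by
        rw [hT, Finset.card_image_of_injective, Finset.card_range]
        intro k l hkl
        have h4 : k * q = l * q := (Prod.ext_iff.1 hkl).1
        exact Nat.eq_of_mul_eq_mul_right (by omega) h4
      have hTsub : (T : Set (ℕ × ℕ)) ⊆ PY a b 1 x (Y x) := by
        intro w hw
        rw [Finset.mem_coe, hT, Finset.mem_image] at hw
        obtain ⟨k, hk, rfl⟩ := hw
        refine ⟨?_, ?_⟩
        · show ((k * q : ℕ) : ℝ) ≤ Y x
          rw [Finset.mem_range, Nat.lt_succ_iff, hk₁, Nat.le_floor_iff (by positivity),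
            le_div_iff₀ hq0] at hk
          push_cast
          exact hk
        · show |a ^ (k * q) - 1 * b ^ (k * p)| ≤ x
          rw [one_mul]
          exact (h2 k hk).le
      have h3 := Set.ncard_le_ncard hTsub (PY_finite ha hb one_pos x (Y x))
      rw [Set.ncard_coe_finset, hTcard] at h3
      have h4 : ((k₁ + 1 : ℕ) : ℝ) ≤ ((PY a b 1 x (Y x)).ncard : ℝ) := by exact_mod_cast h3
      refine le_trans ?_ h4
      push_cast
      have h5 := (Nat.lt_floor_add_one (Y x / (q : ℝ))).le
      refine le_trans ?_ h5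
      rw [le_div_iff₀ hq0]
      have h6 : M ≤ N := (le_max_left _ _).trans hN
      have h7 : 0 < log x ^ 2 := by positivity
      calc M * log x ^ 2 * q ≤ N * log x ^ 2 * q := by gcongr
        _ = (q * N : ℝ) * log x ^ 2 := by ring
        _ ≤ Y x := hx2

end Pool.Agent.Q127.NC
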