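import Pool.Agent.Q127.NC.Near

/-!
# The pairs with `n ≤ K (log x) ^ 2`
-/

set_option autoImplicit false

namespace Pool.Agent.Q127.NC

open Real Filter Set Asymptotics
open Pool.Agent.H491R3.PE

variable {a b c : ℝ}

theorem Bx_sub_PY (ha : 1 < a) (hb : 1 < b) (hc : 0 < c) {x Y : ℝ} (hx : 2 ≤ x)
    (hY : log x / log a ≤ Y) : Bx a b c x ⊆ PY a b c x Y := by
  intro p hp
  refine ⟨?_, (Bx_sub_NB ha hb hc hx hp).1⟩
  exact ((pow_le_iff_log ha (by linarith) p.1).1 hp.1).trans hY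

theorem PY_sub (x Y : ℝ) :
    PY a b c x Y ⊆ NB a b c x ∪ {p | p ∈ K a b c x ∧ (p.1 : ℝ) ≤ Y} := by
  rintro p ⟨h1, h2⟩
  rcases le_or_gt (a ^ p.1) (x ^ 2) with h3 | h3
  · exact Or.inl ⟨h2, h3⟩
  · exact Or.inr ⟨⟨h2, h3⟩, h1⟩

theorem assemble (ha : 1 < a) (hb : 1 < b) (hc : 0 < c) {x Y C R : ℝ} (hx : 2 ≤ x)
    (hY : log x / log a ≤ Y)
    (h0 : (NB a b c x).Finite)
    (h1 : log x ^ 2 / (log a * log b) - C * log x ≤ ((Bx a b c x).ncard : ℝ))
    (h2 : ((NB a b c x).ncard : ℝ) ≤ log x ^ 2 / (log a * log b) + C * log x)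
    (h3 : {p | p ∈ K a b c x ∧ (p.1 : ℝ) ≤ Y}.Finite)
    (h4 : ({p | p ∈ K a b c x ∧ (p.1 : ℝ) ≤ Y}.ncard : ℝ) ≤ R) :
    (PY a b c x Y).Finite ∧
    log x ^ 2 / (log a * log b) - C * log x ≤ ((PY a b c x Y).ncard : ℝ) ∧
    ((PY a b c x Y).ncard : ℝ) ≤ log x ^ 2 / (log a * log b) + C * log x + R := by
  have hfin := (h0.union h3).subset (PY_sub (a := a) (b := b) (c := c) x Y)
  refine ⟨hfin, ?_, ?_⟩
  · refine h1.trans ?_
    exact_mod_cast Set.ncard_le_ncard (Bx_sub_PY ha hb hc hx hY) hfin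
  · have u1 := Set.ncard_le_ncard (PY_sub (a := a) (b := b) (c := c) x Y) (h0.union h3)
    have u2 := Set.ncard_union_le (NB a b c x) {p | p ∈ K a b c x ∧ (p.1 : ℝ) ≤ Y}
    have u3 : ((PY a b c x Y).ncard : ℝ) ≤
        (NB a b c x).ncard + ({p | p ∈ K a b c x ∧ (p.1 : ℝ) ≤ Y}.ncard : ℝ) := by
      exact_mod_cast u1.trans u2
    linarith

/-- the irrational case, uniformly in `c` -/
theorem irr_limit (ha : 1 < a) (hb : 1 < b) (hirr : Irrational (log a / log b)) {K₀ G ε : ℝ}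
    (hK : 0 < K₀) (hε : 0 < ε) :
    ∃ x₀ : ℝ, 2 ≤ x₀ ∧ ∀ x : ℝ, x₀ ≤ x → ∀ c : ℝ, 0 < c → |log c| ≤ G →
      |((PY a b c x (K₀ * log x ^ 2)).ncard : ℝ) / log x ^ 2 - 1 / (log a * log b)| ≤ ε := by
  have hA : 0 < log a := log_pos ha
  have hB : 0 < log b := log_pos hb
  obtain ⟨C, hC0, hbulk⟩ := bulk ha hb (G := max G 0) (le_max_right _ _)
  obtain ⟨D, hD⟩ := exists_nat_ge (2 * K₀ / ε)
  obtain ⟨x₁, hx₁, hcount⟩ := irr_count ha hb hirr D
  set L₀ := 1 + 1 / (K₀ * log a) + 2 * (C + 1) / ε with hL₀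
  have hL₀1 : 1 ≤ L₀ := by
    have : 0 ≤ 1 / (K₀ * log a) + 2 * (C + 1) / ε := by positivity
    linarith
  refine ⟨max x₁ (exp L₀), hx₁.trans (le_max_left _ _), fun x hx c hc hcG => ?_⟩
  have hx1 : x₁ ≤ x := (le_max_left _ _).trans hx
  have hx2 : 2 ≤ x := hx₁.trans hx1
  have hx0 : 0 < x := by linarith
  set L := log x with hL
  have hLL : L₀ ≤ L := by
    rw [hL, Real.le_log_iff_exp_le hx0]
    exact (le_max_right _ _).trans hx
  have hL1 : 1 ≤ L := hL₀1.trans hLL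
  have hLpos : 0 < L := by linarith
  have hKA : 0 < K₀ * log a := by positivity
  have hY : L / log a ≤ K₀ * L ^ 2 := by
    rw [div_le_iff₀ hA]
    have h1 : 1 / (K₀ * log a) ≤ L := by
      have : 0 ≤ 2 * (C + 1) / ε := by positivity
      linarith
    rw [div_le_iff₀ hKA] at h1
    nlinarith
  have h2 : 2 * (C + 1) / ε ≤ L := by
    have : 0 ≤ 1 / (K₀ * log a) := by positivity
    linarith
  rw [div_le_iff₀ hε] at h2
  obtain ⟨b1, b2, b3⟩ := hbulk c hc (hcG.trans (le_max_left _ _)) x hx2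
  obtain ⟨c1, c2⟩ := hcount x hx1 c hc (K₀ * L ^ 2) (by positivity)
  obtain ⟨-, r2, r3⟩ := assemble ha hb hc hx2 hY b1 b2 b3 c1 c2
  rw [div_le_iff₀ hε] at hD
  have h5 : K₀ * L ^ 2 / (D + 1) ≤ ε / 2 * L ^ 2 := by
    rw [div_le_iff₀ (by positivity)]
    have h6 : 0 ≤ L ^ 2 := by positivity
    have h7 : K₀ ≤ ε / 2 * (D + 1) := by linarith
    calc K₀ * L ^ 2 ≤ (ε / 2 * (D + 1)) * L ^ 2 := mul_le_mul_of_nonneg_right h7 h6
      _ = ε / 2 * L ^ 2 * (D + 1) := by ring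
  have h8 : C * L + 1 ≤ ε / 2 * L ^ 2 := by nlinarith
  have hL2 : 0 < L ^ 2 := by positivity
  have e : ((PY a b c x (K₀ * L ^ 2)).ncard : ℝ) / L ^ 2 - 1 / (log a * log b) =
      (((PY a b c x (K₀ * L ^ 2)).ncard : ℝ) - L ^ 2 / (log a * log b)) / L ^ 2 := by
    field_simp
  rw [e, abs_div, abs_of_pos hL2, div_le_iff₀ hL2, abs_le]
  constructor <;> linarith

/-- Bezout with natural numbers -/
theorem bez (p q : ℕ) (hp : 1 ≤ p) (hq : 1 ≤ q) (h : Nat.Coprime p q) (u : ℤ) :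
    ∃ n m : ℕ, (n : ℤ) * p - m * q = u := by
  have h1 := Nat.gcd_eq_gcd_ab p q
  rw [h.gcd_eq_one] at h1
  set α := Nat.gcdA p q
  set β := Nat.gcdB p q
  set k : ℤ := |u * α| + |u * β| with hk
  have hp' : (1 : ℤ) ≤ p := by exact_mod_cast hp
  have hq' : (1 : ℤ) ≤ q := by exact_mod_cast hq
  have e1 : 0 ≤ |u * α| := abs_nonneg _
  have e2 : 0 ≤ |u * β| := abs_nonneg _
  have e3 : -(u * α) ≤ |u * α| := neg_le_abs _
  have e4 : u * β ≤ |u * β| := le_abs_self _
  have hn : 0 ≤ u * α + k * q := by nlinarith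
  have hm : 0 ≤ -(u * β) + k * p := by nlinarith
  refine ⟨(u * α + k * q).toNat, (-(u * β) + k * p).toNat, ?_⟩
  rw [Int.toNat_of_nonneg hn, Int.toNat_of_nonneg hm]
  push_cast at h1
  have : u * 1 = u * (p * α + q * β) := by rw [← h1]
  linarith

/-- the rational case: no near misses at all -/
theorem rat_none (ha : 1 < a) (hb : 1 < b) (hc : 0 < c) (hrat : ¬ Irrational (log a / log b))
    (hsol : ∀ n m n' m' : ℕ, a ^ n = c * b ^ m → a ^ n' = c * b ^ m' → n = n') :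
    ∃ x₀ : ℝ, 2 ≤ x₀ ∧ ∀ x : ℝ, x₀ ≤ x → K a b c x = ∅ := by
  have hA : 0 < log a := log_pos ha
  have hB : 0 < log b := log_pos hb
  have hs := one_lt_sqrt ha
  rw [Irrational, not_not] at hrat
  obtain ⟨r, hr⟩ := hrat
  have hθ : 0 < log a / log b := by positivity
  have hr0 : 0 < r := by
    rw [← hr] at hθ
    exact_mod_cast hθ
  set p := r.num.toNat with hp
  set q := r.den with hq
  have hnum : 0 < r.num := Rat.num_pos.2 hr0
  have hp1 : 1 ≤ p := by omega
  have hq1 : 1 ≤ q := r.den_pos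
  have hpnum : (p : ℤ) = r.num := Int.toNat_of_nonneg hnum.le
  have hcop : Nat.Coprime p q := by
    have := r.reduced
    rwa [show r.num.natAbs = p by omega] at this
  have hpq : log a / log b = (p : ℝ) / q := by
    rw [← hr, Rat.cast_def, ← hpnum, Int.cast_natCast]
  have hq0 : (0 : ℝ) < q := by exact_mod_cast hq1
  set t := log b / q with ht
  have ht0 : 0 < t := by positivity
  have hBt : log b = q * t := by rw [ht]; field_simp
  have hAt : log a = p * t := by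
    rw [ht]
    rw [div_eq_div_iff hB.ne' hq0.ne'] at hpq
    field_simp
    linarith
  have hform : ∀ n m : ℕ, (n : ℝ) * log a - m * log b = (((n : ℤ) * p - m * q : ℤ) : ℝ) * t := by
    intro n m
    rw [hAt, hBt]
    push_cast
    ring
  have hiff : ∀ n m : ℕ, (((n : ℤ) * p - m * q : ℤ) : ℝ) * t = log c → a ^ n = c * b ^ m := by
    intro n m h
    rw [← hform] at h
    have h2 : log (a ^ n) = log (c * b ^ m) := by
      rw [Real.log_mul hc.ne' (by positivity), Real.log_pow, Real.log_pow]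
      linarith
    exact Real.log_injOn_pos (by positivity : 0 < a ^ n) (by positivity : 0 < c * b ^ m) h2
  by_cases hu : ∃ u : ℤ, (u : ℝ) * t = log c
  · exfalso
    obtain ⟨u, hu⟩ := hu
    obtain ⟨n, m, hnm⟩ := bez p q hp1 hq1 hcop u
    have h1 := hiff n m (by rw [hnm]; exact hu)
    have h2 := hiff (n + q) (m + p) (by
      rw [← hu, ← hnm]
      push_cast
      ring)
    have := hsol _ _ _ _ h1 h2
    omega
  · push Not at hu
    set y := log c / t with hy
    have hδ : 0 < t * |y - round y| := by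
      apply mul_pos ht0
      rw [abs_pos, sub_ne_zero]
      intro h
      apply hu (round y)
      rw [← h, hy]
      field_simp
    obtain ⟨n₁, hn₁⟩ := four_div_small ha hδ
    refine ⟨max 2 (√a ^ n₁), le_max_left _ _, fun x hx => ?_⟩
    rw [Set.eq_empty_iff_forall_notMem]
    intro w hw
    have hx2 : 2 ≤ x := (le_max_left _ _).trans hx
    obtain ⟨h1, h2⟩ := K_sub ha hb hc hx2 hw
    have h3 : √a ^ n₁ < √a ^ w.1 := ((le_max_right _ _).trans hx).trans_lt h2
    have h4 := hn₁ w.1 ((pow_lt_pow_iff_right₀ hs).1 h3).le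
    have h5 := h1.2
    rw [hform] at h5
    have h6 : t * |y - round y| ≤ |(((w.1 : ℤ) * p - w.2 * q : ℤ) : ℝ) * t - log c| := by
      have e : (((w.1 : ℤ) * p - w.2 * q : ℤ) : ℝ) * t - log c =
          -(t * (y - (((w.1 : ℤ) * p - w.2 * q : ℤ) : ℝ))) := by
        rw [hy]
        field_simp
        ring
      rw [e, abs_neg, abs_mul, abs_of_pos ht0]
      exact mul_le_mul_of_nonneg_left (round_le y _) ht0.le
    have h7 : 2 / √a ^ w.1 ≤ 4 / √a ^ w.1 := by
      apply div_le_div_of_nonneg_right (by norm_num) (by positivity)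
    linarith

/-- at most one solution: the limit -/
theorem one_limit (ha : 1 < a) (hb : 1 < b) (hc : 0 < c)
    (hsol : ∀ n m n' m' : ℕ, a ^ n = c * b ^ m → a ^ n' = c * b ^ m' → n = n') {K₀ : ℝ}
    (hK : 0 < K₀) :
    Tendsto (fun x : ℝ => ((PY a b c x (K₀ * log x ^ 2)).ncard : ℝ) / log x ^ 2) atTop
      (nhds (1 / (log a * log b))) := by
  rw [Metric.tendsto_atTop]
  intro ε hε
  by_cases hirr : Irrational (log a / log b)
  · obtain ⟨x₀, -, h⟩ := irr_limit ha hb hirr (G := |log c|) hK (half_pos hε)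
    refine ⟨x₀, fun x hx => ?_⟩
    rw [Real.dist_eq]
    have := h x hx c hc le_rfl
    linarith
  · have hA : 0 < log a := log_pos ha
    have hB : 0 < log b := log_pos hb
    obtain ⟨C, hC0, hbulk⟩ := bulk ha hb (G := |log c|) (abs_nonneg _)
    obtain ⟨x₁, hx₁, hnone⟩ := rat_none ha hb hc hirr hsol
    set L₀ := 1 + 1 / (K₀ * log a) + 2 * C / ε with hL₀
    have hL₀1 : 1 ≤ L₀ := by
      have : 0 ≤ 1 / (K₀ * log a) + 2 * C / ε := by positivity
      linarith
    refine ⟨max x₁ (exp L₀), fun x hx => ?_⟩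
    have hx1 : x₁ ≤ x := (le_max_left _ _).trans hx
    have hx2 : 2 ≤ x := hx₁.trans hx1
    have hx0 : 0 < x := by linarith
    set L := log x with hL
    have hLL : L₀ ≤ L := by
      rw [hL, Real.le_log_iff_exp_le hx0]
      exact (le_max_right _ _).trans hx
    have hL1 : 1 ≤ L := hL₀1.trans hLL
    have hLpos : 0 < L := by linarith
    have hKA : 0 < K₀ * log a := by positivity
    have hY : L / log a ≤ K₀ * L ^ 2 := by
      rw [div_le_iff₀ hA]
      have h1 : 1 / (K₀ * log a) ≤ L := by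
        have : 0 ≤ 2 * C / ε := by positivity
        linarith
      rw [div_le_iff₀ hKA] at h1
      nlinarith
    have h2 : 2 * C / ε ≤ L := by
      have : 0 ≤ 1 / (K₀ * log a) := by positivity
      linarith
    rw [div_le_iff₀ hε] at h2
    obtain ⟨b1, b2, b3⟩ := hbulk c hc le_rfl x hx2
    have hemp : {p | p ∈ K a b c x ∧ (p.1 : ℝ) ≤ K₀ * L ^ 2} = ∅ := by
      rw [Set.eq_empty_iff_forall_notMem]
      rintro p ⟨hp, -⟩
      rw [hnone x hx1] at hp
      exact hp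
    obtain ⟨-, r2, r3⟩ := assemble (R := 0) ha hb hc hx2 hY b1 b2 b3 (by rw [hemp]; exact Set.finite_empty)
      (by rw [hemp]; simp)
    have h8 : C * L ≤ ε / 2 * L ^ 2 := by nlinarith
    have hL2 : 0 < L ^ 2 := by positivity
    have e : ((PY a b c x (K₀ * L ^ 2)).ncard : ℝ) / L ^ 2 - 1 / (log a * log b) =
        (((PY a b c x (K₀ * L ^ 2)).ncard : ℝ) - L ^ 2 / (log a * log b)) / L ^ 2 := by
      field_simp
    rw [Real.dist_eq, e, abs_div, abs_of_pos hL2, div_lt_iff₀ hL2]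
    have : ε / 2 * L ^ 2 < ε * L ^ 2 := by nlinarith
    rw [abs_lt]
    constructor <;> linarith

end Pool.Agent.Q127.NC
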