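import Pool.Agent.Q127.NC.Trunc

/-!
# Two solutions of `a ^ n = c b ^ m`
-/

set_option autoImplicit false

namespace Pool.Agent.Q127.NC

open Real Filter Set Asymptotics
open Pool.Agent.H491R3.PE

variable {a b c : ℝ}

theorem PY_finite (ha : 1 < a) (hb : 1 < b) (hc : 0 < c) (x Y : ℝ) : (PY a b c x Y).Finite := by
  classical
  -- `c b ^ m ≤ a ^ n + x ≤ a ^ ⌊Y⌋ + |x|`
  set N := ⌊Y⌋₊ with hN
  set M := a ^ N + |x| + 1 with hM
  have hM0 : 0 < M := by positivity
  refine ((Finset.range (N + 1) ×ˢ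
    Finset.range (⌊(log M - log c) / log b⌋₊ + 1) : Finset (ℕ × ℕ)).finite_toSet).subset ?_
  rintro p ⟨h1, h2⟩
  rw [Finset.mem_coe, Finset.mem_product, Finset.mem_range, Finset.mem_range, Nat.lt_succ_iff,
    Nat.lt_succ_iff]
  have h3 : p.1 ≤ N := Nat.le_floor h1
  refine ⟨h3, Nat.le_floor ?_⟩
  rw [← mul_pow_le_iff_log hb hc hM0]
  rw [abs_le] at h2
  have h4 : a ^ p.1 ≤ a ^ N := pow_le_pow_right₀ ha.le h3
  have h5 : x ≤ |x| := le_abs_self x
  linarith [h2.1]

/-- two solutions: too many pairs -/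
theorem two_many (ha : 1 < a) (hb : 1 < b) (hc : 0 < c) {n m n' m' : ℕ}
    (h1 : a ^ n = c * b ^ m) (h2 : a ^ n' = c * b ^ m') (hnn : n < n') {K₀ : ℝ} (hK : 0 < K₀) :
    ∃ η : ℝ, 0 < η ∧ ∀ᶠ x in atTop,
      (1 / (log a * log b) + η) * log x ^ 2 ≤ ((PY a b c x (K₀ * log x ^ 2)).ncard : ℝ) := by
  classical
  have hA : 0 < log a := log_pos ha
  have hB : 0 < log b := log_pos hb
  set d := n' - n with hd
  have hd1 : 1 ≤ d := by omega
  have hmm : m < m' := by
    have h3 : c * b ^ m < c * b ^ m' := by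
      rw [← h1, ← h2]
      exact pow_lt_pow_right₀ ha hnn
    exact (pow_lt_pow_iff_right₀ hb).1 (lt_of_mul_lt_mul_left h3 hc.le)
  set e := m' - m with he
  have hde : a ^ d = b ^ e := by
    have h3 : a ^ n * a ^ d = a ^ n * b ^ e := by
      rw [← pow_add, show n + d = n' by omega, h2, h1, mul_assoc, ← pow_add,
        show m + e = m' by omega]
    exact mul_left_cancel₀ (by positivity) h3
  have hsol : ∀ k : ℕ, a ^ (n + k * d) = c * b ^ (m + k * e) := by
    intro k
    rw [pow_add, pow_add, mul_comm k d, mul_comm k e, pow_mul, pow_mul, hde, h1, mul_assoc]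
  have hd0 : (0 : ℝ) < d := by exact_mod_cast hd1
  obtain ⟨C, hC0, hbulk⟩ := bulk ha hb (G := |log c|) (abs_nonneg _)
  set C' := C + n / d + 1 / (log a * d) + 1 with hC'
  have hC'0 : 0 < C' := by positivity
  refine ⟨K₀ / (2 * d), by positivity, ?_⟩
  set L₀ := 1 + 1 / (K₀ * log a) + 2 * d * C' / K₀ with hL₀
  have hL₀1 : 1 ≤ L₀ := by
    have : 0 ≤ 1 / (K₀ * log a) + 2 * d * C' / K₀ := by positivity
    linarith
  rw [eventually_atTop]
  refine ⟨max 2 (exp L₀), fun x hx => ?_⟩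
  have hx2 : 2 ≤ x := (le_max_left _ _).trans hx
  have hx0 : 0 < x := by linarith
  set L := log x with hL
  have hLL : L₀ ≤ L := by
    rw [hL, Real.le_log_iff_exp_le hx0]
    exact (le_max_right _ _).trans hx
  have hL1 : 1 ≤ L := hL₀1.trans hLL
  have hLpos : 0 < L := by linarith
  have hKA : 0 < K₀ * log a := by positivity
  have hY : L / log a ≤ K₀ * L ^ 2 := by
    rw [div_le_iff₀ hA]
    have h1 : 1 / (K₀ * log a) ≤ L := by
      have : 0 ≤ 2 * d * C' / K₀ := by positivity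
      linarith
    rw [div_le_iff₀ hKA] at h1
    nlinarith
  have h3 : 2 * d * C' / K₀ ≤ L := by
    have : 0 ≤ 1 / (K₀ * log a) := by positivity
    linarith
  rw [div_le_iff₀ hK] at h3
  obtain ⟨b1, b2, b3⟩ := hbulk c hc le_rfl x hx2
  -- the solutions
  set k₁ := ⌊L / log a / d⌋₊ + 1 with hk₁
  set k₂ := ⌊(K₀ * L ^ 2 - n) / d⌋₊ with hk₂
  set T : Finset (ℕ × ℕ) := (Finset.Icc k₁ k₂).image fun k => (n + k * d, m + k * e) with hT
  have hTcard : T.card = (Finset.Icc k₁ k₂).card := by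
    rw [hT]
    apply Finset.card_image_of_injective
    intro k l hkl
    have h4 : n + k * d = n + l * d := (Prod.ext_iff.1 hkl).1
    have h5 : k * d = l * d := by omega
    exact Nat.eq_of_mul_eq_mul_right (by omega) h5
  have hlow1 : (K₀ * L ^ 2 - n) / d - (L / log a / d + 1) ≤ (T.card : ℝ) := by
    rw [hTcard, Nat.card_Icc]
    have h4 := Nat.lt_floor_add_one ((K₀ * L ^ 2 - n) / (d : ℝ))
    have h5 := Nat.floor_le (by positivity : 0 ≤ L / log a / (d : ℝ))
    have h6 : ((k₂ + 1 : ℕ) : ℝ) - k₁ ≤ ((k₂ + 1 - k₁ : ℕ) : ℝ) := by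
      rw [sub_le_iff_le_add]
      exact_mod_cast (by omega : k₂ + 1 ≤ k₂ + 1 - k₁ + k₁)
    refine le_trans ?_ h6
    rw [hk₁, hk₂]
    push_cast
    linarith
  have hTsub : (T : Set (ℕ × ℕ)) ⊆ PY a b c x (K₀ * L ^ 2) := by
    intro p hp
    rw [Finset.mem_coe, hT, Finset.mem_image] at hp
    obtain ⟨k, hk, rfl⟩ := hp
    rw [Finset.mem_Icc] at hk
    refine ⟨?_, ?_⟩
    · show ((n + k * d : ℕ) : ℝ) ≤ _
      have h4 : 0 < k₂ := by omega
      have h5 : 0 ≤ (K₀ * L ^ 2 - n) / (d : ℝ) := by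
        by_contra hneg
        rw [not_le] at hneg
        have := Nat.floor_of_nonpos hneg.le
        rw [← hk₂] at this
        omega
      have h6 : (k : ℝ) ≤ (K₀ * L ^ 2 - n) / (d : ℝ) := by
        refine le_trans ?_ (Nat.floor_le h5)
        exact_mod_cast hk.2
      rw [le_div_iff₀ hd0] at h6
      push_cast
      linarith
    · show |a ^ (n + k * d) - c * b ^ (m + k * e)| ≤ x
      rw [hsol k, sub_self, abs_zero]
      exact hx0.le
  have hdisj : Disjoint (Bx a b c x) (T : Set (ℕ × ℕ)) := by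
    rw [Set.disjoint_left]
    rintro p hp hpT
    rw [Finset.mem_coe, hT, Finset.mem_image] at hpT
    obtain ⟨k, hk, rfl⟩ := hpT
    rw [Finset.mem_Icc] at hk
    have h4 := (pow_le_iff_log ha hx0 _).1 hp.1
    have h5 : L / log a / (d : ℝ) < k := by
      refine (Nat.lt_floor_add_one _).trans_le ?_
      exact_mod_cast hk.1
    rw [div_lt_iff₀ hd0] at h5
    push_cast at h4
    have h6 : (0 : ℝ) ≤ n := Nat.cast_nonneg n
    linarith
  have hBsub := Bx_sub_PY ha hb hc hx2 hY
  have hfin := PY_finite ha hb hc x (K₀ * L ^ 2)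
  have hsum : ((Bx a b c x).ncard : ℝ) + T.card ≤ ((PY a b c x (K₀ * L ^ 2)).ncard : ℝ) := by
    have h4 := Set.ncard_union_eq hdisj (hfin.subset hBsub) T.finite_toSet
    have h5 := Set.ncard_le_ncard (Set.union_subset hBsub hTsub) hfin
    rw [h4, Set.ncard_coe_finset] at h5
    exact_mod_cast h5
  refine le_trans ?_ hsum
  have h7 : C * L + n / d + L / log a / d + 1 ≤ C' * L := by
    have e1 : C' * L = C * L + n / d * L + L / log a / d + L := by
      rw [hC']
      field_simp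
    rw [e1]
    have h8 : (n : ℝ) / d * 1 ≤ n / d * L := mul_le_mul_of_nonneg_left hL1 (by positivity)
    linarith
  have h9 : C' * L ≤ K₀ / (2 * d) * L ^ 2 := by
    rw [div_mul_eq_mul_div, le_div_iff₀ (by positivity)]
    nlinarith
  have e2 : (K₀ * L ^ 2 - n) / d = 2 * (K₀ / (2 * d) * L ^ 2) - n / d := by
    field_simp
  have e3 : (1 / (log a * log b) + K₀ / (2 * d)) * L ^ 2 =
      L ^ 2 / (log a * log b) + K₀ / (2 * d) * L ^ 2 := by
    ring
  rw [e3]
  rw [e2] at hlow1
  linarith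

/-- **The asymptotic in the range `n ≤ K (log x) ^ 2`.** -/
theorem trunc_iff (ha : 1 < a) (hb : 1 < b) (hc : 0 < c) {K₀ : ℝ} (hK : 0 < K₀) :
    ((fun x : ℝ => ((PY a b c x (K₀ * log x ^ 2)).ncard : ℝ)) ~[atTop]
      (fun x : ℝ => log x ^ 2 / (log a * log b))) ↔
      ∀ n m n' m' : ℕ, a ^ n = c * b ^ m → a ^ n' = c * b ^ m' → n = n' := by
  have hA : 0 < log a := log_pos ha
  have hB : 0 < log b := log_pos hb
  have hev : ∀ᶠ x : ℝ in atTop, log x ^ 2 / (log a * log b) ≠ 0 := by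
    filter_upwards [eventually_gt_atTop 1] with x hx
    have := log_pos hx
    positivity
  have e : ((fun x : ℝ => ((PY a b c x (K₀ * log x ^ 2)).ncard : ℝ)) ~[atTop]
      (fun x : ℝ => log x ^ 2 / (log a * log b))) ↔
      Tendsto (fun x : ℝ => ((PY a b c x (K₀ * log x ^ 2)).ncard : ℝ) / log x ^ 2) atTop
        (nhds (1 / (log a * log b))) := by
    rw [isEquivalent_iff_tendsto_one hev]
    have e1 : ((fun x : ℝ => ((PY a b c x (K₀ * log x ^ 2)).ncard : ℝ)) /
        (fun x : ℝ => log x ^ 2 / (log a * log b))) = fun x : ℝ =>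
        ((PY a b c x (K₀ * log x ^ 2)).ncard : ℝ) / log x ^ 2 * (log a * log b) := by
      funext x
      rw [Pi.div_apply, div_div_eq_mul_div, mul_comm_div]
      ring
    rw [e1]
    constructor
    · intro h
      have h2 := h.mul_const (1 / (log a * log b))
      rw [one_mul] at h2
      refine h2.congr fun x => ?_
      field_simp
    · intro h
      have h2 := h.mul_const (log a * log b)
      rwa [one_div_mul_cancel (by positivity)] at h2
  rw [e]
  constructor
  · intro h n m n' m' h1 h2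
    by_contra hne
    have key : ∀ n m n' m' : ℕ, a ^ n = c * b ^ m → a ^ n' = c * b ^ m' → n < n' → False := by
      intro n m n' m' h1 h2 hlt
      obtain ⟨η, hη, h3⟩ := two_many ha hb hc h1 h2 hlt hK
      have h4 := h.eventually (gt_mem_nhds (show 1 / (log a * log b) <
        1 / (log a * log b) + η by linarith))
      obtain ⟨x, ⟨h5, h6⟩, h7⟩ := ((h3.and h4).and (eventually_gt_atTop (1 : ℝ))).exists
      have h8 : 0 < log x ^ 2 := by
        have := log_pos h7
        positivity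
      rw [div_lt_iff₀ h8] at h6
      linarith
    rcases Nat.lt_or_ge n n' with hlt | hge
    · exact key n m n' m' h1 h2 hlt
    · exact key n' m' n m h2 h1 (by omega)
  · intro h
    exact one_limit ha hb hc h hK

end Pool.Agent.Q127.NC
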